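import Mathlib
import Pool.Agent.U785.ST.Fixed
import Pool.Agent.Y332.SM.Fin

set_option autoImplicit false

/-!
# Windows: short pieces of the horizontal lines on which the image goes around
-/

namespace Pool.Agent.U785.WB

open Real MeasureTheory Set
open Pool.Agent.U785.ST
open Pool.Agent.TH705.SM (L KK KK_one T2 S)
open Pool.Agent.Y332.SM (HasCurve seg)

/-- the density of the cut points -/
noncomputable def Sd (a T : ℕ → ℝ) (s : ℝ) (n : ℕ) (q : ℝ) (t : ℝ) : ℝ :=
  64 * KK * π ^ 2 * ∑ k ∈ Finset.range n, ck a T s n q k t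

theorem Sd2_cont {a T : ℕ → ℝ} (hT : ∀ k, 16 ≤ T k) {q : ℝ} (hq : 1 ≤ q) (n : ℕ) :
    Continuous (fun p : ℝ × ℝ => Sd a T p.1 n q p.2) := by
  unfold Sd
  exact continuous_const.mul (continuous_finsetSum _ fun k _ => ck2_cont hT hq n k)

theorem Sd_cont {a T : ℕ → ℝ} (hT : ∀ k, 16 ≤ T k) (s : ℝ) {q : ℝ} (hq : 1 ≤ q) (n : ℕ) :
    Continuous (Sd a T s n q) := by
  unfold Sd
  exact continuous_const.mul (continuous_finsetSum _ fun k _ => ck_cont hT s hq n k)

theorem Sd_nonneg {a T : ℕ → ℝ} {s : ℝ} {n : ℕ} {q : ℝ} (hq : 1 ≤ q) (t : ℝ) :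
    0 ≤ Sd a T s n q t := by
  have hK := KK_one
  unfold Sd
  have : 0 ≤ ∑ k ∈ Finset.range n, ck a T s n q k t := Finset.sum_nonneg fun k _ => ck_nonneg hq k t
  positivity

theorem Sd_period {a T : ℕ → ℝ} {s : ℝ} {n : ℕ} {q : ℝ} (t : ℝ) :
    Sd a T s n q (t + 1) = Sd a T s n q t := by
  unfold Sd ck
  simp only [el_period]

theorem dist_le {a T : ℕ → ℝ} {s : ℝ} (hT : ∀ k, 16 ≤ T k) {q : ℝ} (hq : 1 ≤ q)
    (hqT : ∀ k, q ^ 2 ≤ 9 / 16 * T k) {n : ℕ} {t : ℝ} (hg : Good a s T n t) :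
    |B a s (n + 1) t / D a s (n + 1) t ^ 2| ≤ 1 / 3 * Sd a T s n q t := by
  have hK := KK_one
  have h5 := B_le hT hg
  unfold Sd
  set S := ∑ k ∈ Finset.range n, ck a T s n q k t with hS
  have hc0 : 0 ≤ S := Finset.sum_nonneg fun k _ => ck_nonneg hq k t
  have h10 : ∑ j ∈ Finset.range n, et a s j t / |D a s (n + 1) t| ≤ 16 * π ^ 2 * S := by
    rw [hS, Finset.mul_sum]
    apply Finset.sum_le_sum
    intro k hk
    rw [Finset.mem_range] at hk
    refine (et_le hT hq hqT hg hk).trans ?_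
    exact mul_le_mul_of_nonneg_left (ck_ge hq k t) (by positivity)
  refine h5.trans ?_
  have : 0 ≤ π ^ 2 * S := by positivity
  nlinarith

/-- a short piece before a cut -/
theorem short {a T : ℕ → ℝ} {s : ℝ} (hT : ∀ k, 16 ≤ T k) (hTm : ∀ k, T k ≤ T (k + 1)) {q : ℝ}
    (hq : 1 ≤ q) (hqT : ∀ k, q ^ 2 ≤ 9 / 16 * T k) {n : ℕ} {c e : ℝ} (hce : c ≤ e)
    (hg : ∀ t ∈ Icc c e, Good a s T n t) (hc : 1 / 2 ≤ chi a T s n n c)
    (he : chi a T s n n e = 0) (hX : |X a s (n + 1) e - X a s (n + 1) c| ≤ 2) :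
    e - c ≤ 8 * ∫ t in c..e, Sd a T s n q t := by
  have hK := KK_one
  have hce' : c < e := by
    rcases hce.lt_or_eq with h | h
    · exact h
    · rw [h, he] at hc
      norm_num at hc
  by_contra hcon
  rw [not_le] at hcon
  have cS := Sd_cont (a := a) hT s hq n
  have hS0 : ∀ t, 0 ≤ Sd a T s n q t := fun t => Sd_nonneg hq t
  set Sg := ∫ t in c..e, Sd a T s n q t with hSg
  have hSg0 : 0 ≤ Sg := intervalIntegral.integral_nonneg hce fun t _ => hS0 t
  set P := e - c with hP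
  have hP0 : 0 < P := by linarith
  have hDne : ∀ t ∈ Icc c e, D a s (n + 1) t ≠ 0 := fun t ht => D_ne hT (hg t ht) n le_rfl
  have sub_int : ∀ x ∈ Icc c e, ∀ y ∈ Icc c e, x ≤ y → ∫ t in x..y, Sd a T s n q t ≤ Sg := by
    intro x hx y hy hxy
    exact intervalIntegral.integral_mono_interval hx.1 hxy hy.2
      (Filter.Eventually.of_forall fun t => hS0 t) (cS.intervalIntegrable _ _)
  -- the inverse derivative
  have hω : ∀ x ∈ Icc c e, ∀ y ∈ Icc c e, x ≤ y →
      |1 / D a s (n + 1) y - 1 / D a s (n + 1) x| ≤ 1 / 3 * Sg := by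
    intro x hx y hy hxy
    have hsub : ∀ t ∈ uIcc x y, t ∈ Icc c e := by
      intro t ht
      rw [uIcc_of_le hxy] at ht
      exact ⟨hx.1.trans ht.1, ht.2.trans hy.2⟩
    have hd : ∀ t ∈ uIcc x y, HasDerivAt (fun t => 1 / D a s (n + 1) t)
        (-(B a s (n + 1) t / D a s (n + 1) t ^ 2)) t := by
      intro t ht
      have h1 := (hasDerivAt_const t (1:ℝ)).div (D_hasDeriv a s (n + 1) t) (hDne t (hsub t ht))
      refine HasDerivAt.congr_deriv (f := fun t => 1 / D a s (n + 1) t) h1 ?_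
      ring
    have hi : ContinuousOn (fun t => -(B a s (n + 1) t / D a s (n + 1) t ^ 2)) (uIcc x y) := by
      apply ContinuousOn.neg
      apply ContinuousOn.div (B_cont a s (n + 1)).continuousOn
        ((D_cont a s (n + 1)).pow 2).continuousOn
      intro t ht
      exact pow_ne_zero 2 (hDne t (hsub t ht))
    have h1 := intervalIntegral.integral_eq_sub_of_hasDerivAt hd hi.intervalIntegrable
    rw [← h1, ← Real.norm_eq_abs]
    have h2 : ‖∫ t in x..y, -(B a s (n + 1) t / D a s (n + 1) t ^ 2)‖ ≤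
        ∫ t in x..y, 1 / 3 * Sd a T s n q t := by
      apply intervalIntegral.norm_integral_le_of_norm_le hxy
      · refine Filter.Eventually.of_forall fun t ht => ?_
        rw [norm_neg, Real.norm_eq_abs]
        exact dist_le hT hq hqT (hg t ⟨hx.1.trans ht.1.le, ht.2.trans hy.2⟩)
      · exact (continuous_const.mul cS).intervalIntegrable _ _
    refine h2.trans ?_
    rw [intervalIntegral.integral_const_mul]
    exact mul_le_mul_of_nonneg_left (sub_int x hx y hy hxy) (by norm_num)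
  -- the mean value theorem
  obtain ⟨t', ht', ht'2⟩ := exists_hasDerivAt_eq_slope (X a s (n + 1)) (D a s (n + 1)) hce'
    (Xt_cont a s (n + 1)).continuousOn (fun t _ => X_hasDeriv a s (n + 1) t)
  have ht'I : t' ∈ Icc c e := ⟨ht'.1.le, ht'.2.le⟩
  have h1 : P / 2 ≤ |1 / D a s (n + 1) t'| := by
    rw [abs_div, abs_one, le_div_iff₀ (abs_pos.2 (hDne t' ht'I)), ht'2, abs_div,
      abs_of_pos hP0]
    rw [div_mul_div_comm, div_le_iff₀ (by positivity)]
    nlinarith
  have h2 : ∀ x ∈ Icc c e, 11 / 24 * P ≤ |1 / D a s (n + 1) x| := by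
    intro x hx
    have h3 : |1 / D a s (n + 1) x - 1 / D a s (n + 1) t'| ≤ 1 / 3 * Sg := by
      rcases le_total x t' with h | h
      · rw [abs_sub_comm]
        exact hω x hx t' ht'I h
      · exact hω t' ht'I x hx h
    have h4 := abs_sub_abs_le_abs_sub (1 / D a s (n + 1) t') (1 / D a s (n + 1) x)
    rw [abs_sub_comm] at h4
    linarith
  have h3 : ∀ x ∈ Icc c e, |D a s (n + 1) x| ≤ 24 / (11 * P) := by
    intro x hx
    have h4 := h2 x hx
    rw [abs_div, abs_one, le_div_iff₀ (abs_pos.2 (hDne x hx))] at h4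
    rw [le_div_iff₀ (by positivity)]
    linarith
  have h4 : |∫ t in c..e, chi' a T s n n t| ≤ ∫ t in c..e, Sd a T s n q t * (24 / (11 * P)) := by
    rw [← Real.norm_eq_abs]
    apply intervalIntegral.norm_integral_le_of_norm_le hce
    · refine Filter.Eventually.of_forall fun t ht => ?_
      rw [Real.norm_eq_abs]
      have htI : t ∈ Icc c e := ⟨ht.1.le, ht.2⟩
      refine (chi'_le hT hTm hq hqT (hg t htI) n le_rfl).trans ?_
      exact mul_le_mul_of_nonneg_left (h3 t htI) (hS0 t)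
    · exact (cS.mul continuous_const).intervalIntegrable _ _
  rw [intervalIntegral.integral_mul_const, intervalIntegral.integral_eq_sub_of_hasDerivAt
    (fun t _ => chi_hasDeriv a T s n n t) ((chi'_cont a T s n n).intervalIntegrable _ _), he,
    zero_sub, abs_neg, ← hSg] at h4
  have h5 := le_abs_self (chi a T s n n c)
  have h6 : Sg * (24 / (11 * P)) ≤ 24 / 88 := by
    rw [mul_div_assoc', div_le_div_iff₀ (by positivity) (by norm_num)]
    linarith
  linarith

/-- growth of the first coordinate -/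
theorem time_incr {a T : ℕ → ℝ} {s : ℝ} (hT : ∀ k, 16 ≤ T k) {q : ℝ} (hq : 1 ≤ q)
    (hqT : ∀ k, q ^ 2 ≤ 9 / 16 * T k) {n : ℕ} {c e : ℝ} (hce : c ≤ e)
    (hg : ∀ t ∈ Icc c e, Good a s T n t) :
    q ^ n * (e - c) ≤ |X a s (n + 1) e - X a s (n + 1) c| := by
  have hq0 : 0 < q ^ n := by positivity
  have h1 := Pool.Agent.Y332.SM.incr (K := 1 / q ^ n) hce (X_hasDeriv a s (n + 1))
    (fun x => hasDerivAt_id x) (D_cont a s (n + 1))
    (fun x hx => D_ne hT (hg x hx) n le_rfl) (fun x hx => by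
      have h2 := D_w hT (hg x hx) n 0 (by omega)
      have h3 := w_low hq hqT (hg x hx) n 0 (by omega)
      have e1 : |D a s (0 + 1) x| = 1 := by
        show |(1:ℝ)| = 1
        exact abs_one
      rw [e1, one_mul] at h2
      rw [Nat.sub_zero] at h3
      rw [abs_one, div_mul_eq_mul_div, one_mul, le_div_iff₀ hq0, one_mul]
      exact h3.trans h2)
  simp only [id] at h1
  rw [abs_of_nonneg (by linarith : 0 ≤ e - c), div_mul_eq_mul_div, one_mul, le_div_iff₀ hq0] at h1
  linarith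

/-- the second coordinate against the first one -/
theorem slope {a T : ℕ → ℝ} {s : ℝ} (hT : ∀ k, 16 ≤ T k) {n : ℕ} (hn : 1 ≤ n) {c e : ℝ}
    (hce : c ≤ e) (hg : ∀ t ∈ Icc c e, Good a s T n t) :
    |X a s n e - X a s n c| ≤ 1 / 8 * |X a s (n + 1) e - X a s (n + 1) c| := by
  refine Pool.Agent.Y332.SM.incr hce (X_hasDeriv a s (n + 1)) (X_hasDeriv a s n)
    (D_cont a s (n + 1)) (fun x hx => D_ne hT (hg x hx) n le_rfl) (fun x hx => ?_)
  refine (D_last hT hn (hg x hx)).trans ?_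
  apply mul_le_mul_of_nonneg_right _ (abs_nonneg _)
  have h1 := hT (n - 1)
  rw [div_div, div_le_div_iff₀ (by positivity) (by norm_num)]
  linarith

theorem good_of_chi {a T : ℕ → ℝ} {s : ℝ} (hT : ∀ k, 16 ≤ T k) {n : ℕ} {t : ℝ}
    (h : chi a T s n n t ≠ 0) : Good a s T n t := by
  by_contra hcon
  exact h (chi_not_good hT hcon).1

theorem good_closed (a T : ℕ → ℝ) (n : ℕ) : IsClosed {p : ℝ × ℝ | Good a p.1 T n p.2} := by
  have : {p : ℝ × ℝ | Good a p.1 T n p.2} =
      ⋂ k ∈ {k | k < n}, {p : ℝ × ℝ | T k ≤ |el a p.1 n k p.2 * el a p.1 n (k + 1) p.2|} := by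
    ext p
    simp [Good]
  rw [this]
  exact isClosed_biInter fun k _ => isClosed_le continuous_const
    ((el2_cont a n k).mul (el2_cont a n (k + 1))).abs

theorem good_closed1 (a T : ℕ → ℝ) (s : ℝ) (n : ℕ) : IsClosed {t : ℝ | Good a s T n t} :=
  (good_closed a T n).preimage (by fun_prop : Continuous (fun t : ℝ => ((s, t) : ℝ × ℝ)))

/-- the points with a cut in front of them -/
def Cutp (a T : ℕ → ℝ) (s : ℝ) (n : ℕ) (t : ℝ) : Prop :=
  ∃ e, t ≤ e ∧ e ≤ t + 2 ∧ chi a T s n n e = 0 ∧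
    ∀ u ∈ Icc t e, Good a s T n u ∧ |X a s (n + 1) u - X a s (n + 1) t| ≤ 2

theorem window {a T : ℕ → ℝ} {s : ℝ} (hT : ∀ k, 16 ≤ T k) {q : ℝ} (hq : 1 ≤ q)
    (hqT : ∀ k, q ^ 2 ≤ 9 / 16 * T k) {n : ℕ} {t : ℝ} (hc : 1 / 2 ≤ chi a T s n n t) :
    Cutp a T s n t ∨ ∃ e, t ≤ e ∧ |X a s (n + 1) e - X a s (n + 1) t| = 2 ∧
      ∀ u ∈ Icc t e, Good a s T n u := by
  have hq1 : 1 ≤ q ^ n := one_le_pow₀ hq
  have cX := Xt_cont a s (n + 1)
  have cc := chi_cont a T s n n
  set Z : Set ℝ := {u | t ≤ u ∧ (chi a T s n n u = 0 ∨ 2 ≤ |X a s (n + 1) u - X a s (n + 1) t|)}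
    with hZ
  have hZc : IsClosed Z := by
    have h1 : IsClosed {u : ℝ | t ≤ u} := isClosed_Ici
    have h2 : IsClosed {u : ℝ | chi a T s n n u = 0} := isClosed_eq cc continuous_const
    have h3 : IsClosed {u : ℝ | 2 ≤ |X a s (n + 1) u - X a s (n + 1) t|} :=
      isClosed_le continuous_const (cX.sub continuous_const).abs
    exact h1.inter (h2.union h3)
  -- as long as there is no point of `Z`
  have hgo : ∀ e, t ≤ e → (∀ u, t ≤ u → u < e → u ∉ Z) → ∀ u ∈ Icc t e, Good a s T n u := by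
    intro e hte h
    have h1 : ∀ u ∈ Ico t e, Good a s T n u := by
      intro u hu
      apply good_of_chi hT
      intro h0
      exact h u hu.1 hu.2 ⟨hu.1, Or.inl h0⟩
    rcases hte.lt_or_eq with h2 | h2
    · have h3 : closure (Ico t e) ⊆ {t : ℝ | Good a s T n t} :=
        closure_minimal (fun u hu => h1 u hu) (good_closed1 a T s n)
      rw [closure_Ico h2.ne] at h3
      exact fun u hu => h3 hu
    · intro u hu
      rw [← h2] at hu
      have : u = t := le_antisymm hu.2 hu.1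
      rw [this]
      apply good_of_chi hT
      linarith
  have hne : Z.Nonempty := by
    by_contra hcon
    rw [not_nonempty_iff_eq_empty] at hcon
    have h1 := hgo (t + 2) (by linarith) (fun u _ _ h => by rw [hcon] at h; exact h)
    have h2 := time_incr hT hq hqT (by linarith : t ≤ t + 2) h1
    have h3 : t + 2 ∉ Z := by rw [hcon]; simp
    rw [hZ, mem_ofPred_eq, not_and_or, not_or] at h3
    rcases h3 with h3 | ⟨_, h3⟩
    · exact h3 (by linarith)
    · rw [not_le] at h3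
      nlinarith
  have hbd : BddBelow Z := ⟨t, fun u hu => hu.1⟩
  set e := sInf Z with he
  have heZ : e ∈ Z := hZc.csInf_mem hne hbd
  have hte : t ≤ e := heZ.1
  have hlt : ∀ u, t ≤ u → u < e → u ∉ Z := fun u _ hu h => absurd (csInf_le hbd h) (not_le.2 hu)
  have hgd := hgo e hte hlt
  -- the increments are at most two
  have hinc : ∀ u ∈ Icc t e, |X a s (n + 1) u - X a s (n + 1) t| ≤ 2 := by
    have h1 : ∀ u ∈ Ico t e, |X a s (n + 1) u - X a s (n + 1) t| ≤ 2 := by
      intro u hu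
      by_contra h
      rw [not_le] at h
      exact hlt u hu.1 hu.2 ⟨hu.1, Or.inr h.le⟩
    rcases hte.lt_or_eq with h2 | h2
    · have h3 : closure (Ico t e) ⊆ {u : ℝ | |X a s (n + 1) u - X a s (n + 1) t| ≤ 2} :=
        closure_minimal (fun u hu => h1 u hu)
          (isClosed_le (cX.sub continuous_const).abs continuous_const)
      rw [closure_Ico h2.ne] at h3
      exact fun u hu => h3 hu
    · intro u hu
      rw [← h2] at hu
      have : u = t := le_antisymm hu.2 hu.1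
      rw [this, sub_self, abs_zero]
      norm_num
  have h2 := time_incr hT hq hqT hte hgd
  have h3 := hinc e ⟨hte, le_rfl⟩
  have he2 : e ≤ t + 2 := by nlinarith
  rcases heZ.2 with h | h
  · exact Or.inl ⟨e, hte, he2, h, fun u hu => ⟨hgd u hu, hinc u hu⟩⟩
  · exact Or.inr ⟨e, hte, le_antisymm h3 h, hgd⟩

/-- the length of a window without distortion -/
theorem win_len {a T : ℕ → ℝ} {s : ℝ} (hT : ∀ k, 16 ≤ T k) {q : ℝ}
    (hq : 1 ≤ q) (hqT : ∀ k, q ^ 2 ≤ 9 / 16 * T k) {n : ℕ} {c e : ℝ} (hce : c < e)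
    (hg : ∀ t ∈ Icc c e, Good a s T n t) (hX : |X a s (n + 1) e - X a s (n + 1) c| = 2)
    (hS : ∫ t in c..e, Sd a T s n q t ≤ 1 / 8 * (e - c)) :
    (e - c) * |D a s (n + 1) c| ≤ 3 := by
  have cS := Sd_cont (a := a) hT s hq n
  have hS0 : ∀ t, 0 ≤ Sd a T s n q t := fun t => Sd_nonneg hq t
  set P := e - c with hP
  have hP0 : 0 < P := by linarith
  have hDne : ∀ t ∈ Icc c e, D a s (n + 1) t ≠ 0 := fun t ht => D_ne hT (hg t ht) n le_rfl
  obtain ⟨t', ht', ht'2⟩ := exists_hasDerivAt_eq_slope (X a s (n + 1)) (D a s (n + 1)) hce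
    (Xt_cont a s (n + 1)).continuousOn (fun t _ => X_hasDeriv a s (n + 1) t)
  have ht'I : t' ∈ Icc c e := ⟨ht'.1.le, ht'.2.le⟩
  have hcI : c ∈ Icc c e := ⟨le_rfl, hce.le⟩
  have h1 : |1 / D a s (n + 1) t'| = P / 2 := by
    rw [abs_div, abs_one, ht'2, abs_div, abs_of_pos hP0, hX]
    field_simp
  have hsub : ∀ t ∈ uIcc c t', t ∈ Icc c e := by
    intro t ht
    rw [uIcc_of_le ht'.1.le] at ht
    exact ⟨ht.1, ht.2.trans ht'.2.le⟩
  have hd : ∀ t ∈ uIcc c t', HasDerivAt (fun t => 1 / D a s (n + 1) t)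
      (-(B a s (n + 1) t / D a s (n + 1) t ^ 2)) t := by
    intro t ht
    have h1 := (hasDerivAt_const t (1:ℝ)).div (D_hasDeriv a s (n + 1) t) (hDne t (hsub t ht))
    refine HasDerivAt.congr_deriv (f := fun t => 1 / D a s (n + 1) t) h1 ?_
    ring
  have hi : ContinuousOn (fun t => -(B a s (n + 1) t / D a s (n + 1) t ^ 2)) (uIcc c t') := by
    apply ContinuousOn.neg
    apply ContinuousOn.div (B_cont a s (n + 1)).continuousOn
      ((D_cont a s (n + 1)).pow 2).continuousOn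
    intro t ht
    exact pow_ne_zero 2 (hDne t (hsub t ht))
  have h2 := intervalIntegral.integral_eq_sub_of_hasDerivAt hd hi.intervalIntegrable
  have h3 : |1 / D a s (n + 1) t' - 1 / D a s (n + 1) c| ≤ 1 / 24 * P := by
    rw [← h2, ← Real.norm_eq_abs]
    have h4 : ‖∫ t in c..t', -(B a s (n + 1) t / D a s (n + 1) t ^ 2)‖ ≤
        ∫ t in c..t', 1 / 3 * Sd a T s n q t := by
      apply intervalIntegral.norm_integral_le_of_norm_le ht'.1.le
      · refine Filter.Eventually.of_forall fun t ht => ?_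
        rw [norm_neg, Real.norm_eq_abs]
        exact dist_le hT hq hqT (hg t ⟨ht.1.le, ht.2.trans ht'.2.le⟩)
      · exact (continuous_const.mul cS).intervalIntegrable _ _
    refine h4.trans ?_
    rw [intervalIntegral.integral_const_mul]
    have h5 : ∫ t in c..t', Sd a T s n q t ≤ ∫ t in c..e, Sd a T s n q t :=
      intervalIntegral.integral_mono_interval le_rfl ht'.1.le ht'.2.le
        (Filter.Eventually.of_forall fun t => hS0 t) (cS.intervalIntegrable _ _)
    linarith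
  have h4 := abs_sub_abs_le_abs_sub (1 / D a s (n + 1) t') (1 / D a s (n + 1) c)
  have h5 : 11 / 24 * P ≤ |1 / D a s (n + 1) c| := by linarith
  rw [abs_div, abs_one, le_div_iff₀ (abs_pos.2 (hDne c hcI))] at h5
  linarith

/-- a window gives a crossing curve -/
theorem curve_of {a : ℝ} {T : ℕ → ℝ} {s t e r : ℝ} (hT : ∀ k, 16 ≤ T k)
    {n : ℕ} (hn : 1 ≤ n) (hte : t ≤ e) (hlen : e - t ≤ r)
    (hX : |X (fun _ => a) s (n + 1) e - X (fun _ => a) s (n + 1) t| = 2)
    (hg : ∀ u ∈ Icc t e, Good (fun _ => a) s T n u) :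
    HasCurve ((S a)^[n] '' seg r t s) := by
  set Y : ℝ → ℝ := X (fun _ => a) s (n + 1) with hY
  set α : ℝ := (Y t + Y e) / 2 with hα
  have hsub : Icc (α - 1) (α + 1) ⊆ Y '' Icc t e := by
    have h1 := intermediate_value_uIcc (a := t) (b := e) (f := Y)
      (Xt_cont (fun _ => a) s (n + 1)).continuousOn
    rw [uIcc_of_le hte] at h1
    refine subset_trans ?_ h1
    rcases (abs_eq (by norm_num : (0:ℝ) ≤ 2)).1 hX with h5 | h5
    · rw [uIcc_of_le (by linarith)]
      apply Icc_subset_Icc <;> rw [hα] <;> linarith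
    · rw [uIcc_of_ge (by linarith)]
      apply Icc_subset_Icc <;> rw [hα] <;> linarith
  have hsub' : ∀ x ∈ Icc (α - 1) (α + 1), ∃ u, u ∈ Icc t e ∧ Y u = x :=
    fun x hx => hsub hx
  choose! τ hτ using hsub'
  refine ⟨α, fun x => X (fun _ => a) s n (τ x), ?_, ?_⟩
  · intro x hx
    have h1 := (hτ x hx).1
    have h2 : ((τ x : UnitAddCircle), (s : UnitAddCircle)) ∈ seg r t s := by
      refine ⟨τ x, ?_, rfl⟩
      rw [abs_le]
      constructor <;> linarith [h1.1, h1.2]
    refine ⟨_, h2, ?_⟩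
    have h5 := Fs_coe (fun _ => a) s (τ x) n
    rw [Fs_const] at h5
    rw [h5]
    have h4 : X (fun _ => a) s (n + 1) (τ x) = x := (hτ x hx).2
    rw [h4]
  · have key : ∀ x ∈ Icc (α - 1) (α + 1), ∀ y ∈ Icc (α - 1) (α + 1), τ x ≤ τ y →
        |X (fun _ => a) s n (τ y) - X (fun _ => a) s n (τ x)| ≤ 1 / 8 * |y - x| := by
      intro x hx y hy hxy
      have h1 := slope hT hn hxy (a := fun _ => a) (s := s) (fun v hv => hg v
        ⟨(hτ x hx).1.1.trans hv.1, hv.2.trans (hτ y hy).1.2⟩)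
      have h4 : X (fun _ => a) s (n + 1) (τ x) = x := (hτ x hx).2
      have h5 : X (fun _ => a) s (n + 1) (τ y) = y := (hτ y hy).2
      rwa [h4, h5] at h1
    intro x hx y hy
    rcases le_total (τ x) (τ y) with h | h
    · rw [abs_sub_comm, abs_sub_comm x y]
      exact key x hx y hy h
    · exact key y hy x hx h

end Pool.Agent.U785.WB
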