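import Mathlib
import Pool.Agent.U785.WB.Win
import Pool.Agent.U785.ST.Grow

set_option autoImplicit false

/-!
# The exceptional set is small
-/

namespace Pool.Agent.U785.WB

open Real MeasureTheory Set
open Pool.Agent.U785.ST
open Pool.Agent.TH705.SM (L KK KK_one T2 S)
open Pool.Agent.Y332.SM (HasCurve seg)
open scoped ENNReal

/-- somewhere in front of `t` there is much distortion -/
def Mx (a T : ℕ → ℝ) (s : ℝ) (n : ℕ) (q t : ℝ) : Prop :=
  ∃ e, t ≤ e ∧ e ≤ t + 2 ∧ 1 / 8 ≤ ∫ θ in (0:ℝ)..1, Sd a T s n q (t + (e - t) * θ)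

theorem mean_eq {a T : ℕ → ℝ} {s : ℝ} {n : ℕ} {q t e : ℝ} (hte : t < e) :
    (e - t) * ∫ θ in (0:ℝ)..1, Sd a T s n q (t + (e - t) * θ) = ∫ u in t..e, Sd a T s n q u := by
  have h0 : e - t ≠ 0 := by linarith
  rw [intervalIntegral.integral_comp_add_mul _ h0, smul_eq_mul, mul_inv_cancel_left₀ h0]
  congr 1 <;> ring

theorem not_Mx {a T : ℕ → ℝ} {s : ℝ} {n : ℕ} {q t : ℝ} (h : ¬ Mx a T s n q t) {e : ℝ}
    (hte : t < e) (he : e ≤ t + 2) : ∫ u in t..e, Sd a T s n q u < 1 / 8 * (e - t) := by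
  by_contra hcon
  rw [not_lt, ← mean_eq hte] at hcon
  apply h
  refine ⟨e, hte.le, he, ?_⟩
  have h1 : 0 < e - t := by linarith
  rw [mul_comm (1 / 8 : ℝ)] at hcon
  exact le_of_mul_le_mul_left hcon h1

/-- outside the bad sets there is a window -/
theorem good_window {a T : ℕ → ℝ} {s : ℝ} (hT : ∀ k, 16 ≤ T k) (hTm : ∀ k, T k ≤ T (k + 1))
    {q : ℝ} (hq : 1 ≤ q) (hqT : ∀ k, q ^ 2 ≤ 9 / 16 * T k) {n : ℕ} {t : ℝ}
    (hc : 1 / 2 ≤ chi a T s n n t) (hm : ¬ Mx a T s n q t) :
    ∃ e, t ≤ e ∧ (e - t) * |D a s (n + 1) t| ≤ 3 ∧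
      |X a s (n + 1) e - X a s (n + 1) t| = 2 ∧ ∀ u ∈ Icc t e, Good a s T n u := by
  rcases window hT hq hqT hc with ⟨e, h1, h2, h3, h4⟩ | ⟨e, h1, h2, h3⟩
  · exfalso
    have hlt : t < e := by
      rcases h1.lt_or_eq with h | h
      · exact h
      · rw [← h] at h3
        rw [h3] at hc
        norm_num at hc
    have h5 := short hT hTm hq hqT h1 (fun u hu => (h4 u hu).1) hc h3 (h4 e ⟨h1, le_rfl⟩).2
    have h6 := not_Mx hm hlt h2
    linarith
  · have hlt : t < e := by
      rcases h1.lt_or_eq with h | h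
      · exact h
      · rw [← h, sub_self, abs_zero] at h2
        norm_num at h2
    have h4 := time_incr hT hq hqT h1 h3
    have h5 : 1 ≤ q ^ n := one_le_pow₀ hq
    rw [h2] at h4
    have h6 : e ≤ t + 2 := by nlinarith
    exact ⟨e, h1, win_len hT hq hqT hlt h3 h2 (not_Mx hm hlt h6).le, h2, h3⟩

/-- one horizontal line: the points with much distortion in front of them -/
theorem line {a T : ℕ → ℝ} {s : ℝ} (hT : ∀ k, 16 ≤ T k) {q : ℝ} (hq : 1 ≤ q) {n : ℕ} :
    volume {t : ℝ | t ∈ Icc (0:ℝ) 1 ∧ Mx a T s n q t} ≤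
      ENNReal.ofReal (192 * ∫ t in (0:ℝ)..1, Sd a T s n q t) := by
  set E : Set ℝ := {t : ℝ | t ∈ Icc (0:ℝ) 1 ∧ Mx a T s n q t} with hE
  have cS := Sd_cont (a := a) hT s hq n
  have hS0 : ∀ t, 0 ≤ Sd a T s n q t := fun t => Sd_nonneg hq t
  have hE' : ∀ t ∈ E, ∃ e, t < e ∧ e ≤ t + 2 ∧ e - t ≤ 16 * ∫ u in t..e, Sd a T s n q u := by
    rintro t ⟨_, e, h1, h2, h3⟩
    rcases h1.lt_or_eq with h | h
    · refine ⟨e, h, h2, ?_⟩
      rw [← mean_eq h]
      have h4 : 0 < e - t := by linarith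
      nlinarith
    · rw [← h] at h3
      simp only [sub_self, zero_mul, add_zero, intervalIntegral.integral_const, sub_zero,
        one_smul] at h3
      have h4 : ∀ᶠ u in nhds t, 1 / 16 < Sd a T s n q u :=
        cS.continuousAt.eventually (lt_mem_nhds (by linarith))
      obtain ⟨ε, hε, hball⟩ := Metric.eventually_nhds_iff.1 h4
      set m : ℝ := min (ε / 2) 2 with hm
      have hm0 : 0 < m := lt_min (by linarith) (by norm_num)
      have hm1 : m ≤ ε / 2 := min_le_left _ _
      have hm2 : m ≤ 2 := min_le_right _ _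
      refine ⟨t + m, by linarith, by linarith, ?_⟩
      have h5 : ∫ u in t..(t + m), (1 / 16 : ℝ) ≤ ∫ u in t..(t + m), Sd a T s n q u := by
        apply intervalIntegral.integral_mono_on (by linarith)
          (continuous_const.intervalIntegrable _ _) (cS.intervalIntegrable _ _)
        intro u hu
        apply le_of_lt
        apply hball
        rw [Real.dist_eq, abs_of_nonneg (by linarith [hu.1])]
        linarith [hu.2]
      rw [intervalIntegral.integral_const, smul_eq_mul] at h5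
      linarith
  choose! e he1 he2 he3 using hE'
  have hball : ∀ t, Metric.closedBall ((t + e t) / 2) ((e t - t) / 2) = Icc t (e t) := by
    intro t
    rw [Real.closedBall_eq_Icc]
    congr 1 <;> ring
  obtain ⟨u, hu, hud, huc⟩ := Vitali.exists_disjoint_subfamily_covering_enlargement_closedBall E
    (fun t => (t + e t) / 2) (fun t => (e t - t) / 2) 1
    (fun t ht => by have := he2 t ht; linarith) 4 (by norm_num)
  have hud' : u.PairwiseDisjoint fun t => Icc t (e t) := by
    intro x hx y hy hxy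
    have := hud hx hy hxy
    simp only [Function.onFun, hball] at this ⊢
    exact this
  have hucount : u.Countable := by
    refine hud'.countable_of_nonempty_interior fun t ht => ?_
    rw [interior_Icc]
    exact nonempty_Ioo.2 (he1 t (hu ht))
  -- covering
  have hcov : E ⊆ ⋃ t ∈ u, Metric.closedBall ((t + e t) / 2) (4 * ((e t - t) / 2)) := by
    intro t ht
    obtain ⟨b, hb, hsub⟩ := huc t ht
    simp only [mem_iUnion]
    refine ⟨b, hb, hsub ?_⟩
    rw [hball]
    exact ⟨le_rfl, (he1 t ht).le⟩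
  have hle : ∀ t ∈ u, volume (Metric.closedBall ((t + e t) / 2) (4 * ((e t - t) / 2))) ≤
      64 * ∫⁻ v in Icc t (e t), ENNReal.ofReal (Sd a T s n q v) := by
    intro t ht
    have h1 := he1 t (hu ht)
    rw [Real.volume_closedBall]
    have h2 := he3 t (hu ht)
    have h3 : ENNReal.ofReal (∫ v in t..(e t), Sd a T s n q v) =
        ∫⁻ v in Icc t (e t), ENNReal.ofReal (Sd a T s n q v) := by
      rw [intervalIntegral.integral_of_le h1.le, ← integral_Icc_eq_integral_Ioc,
        ofReal_integral_eq_lintegral_ofReal]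
      · exact cS.integrableOn_Icc
      · exact Filter.Eventually.of_forall fun v => hS0 v
    rw [← h3]
    have e32 : (64:ℝ≥0∞) = ENNReal.ofReal 64 := by norm_num
    rw [e32, ← ENNReal.ofReal_mul (by norm_num)]
    apply ENNReal.ofReal_le_ofReal
    linarith
  calc volume E ≤ volume (⋃ t ∈ u, Metric.closedBall ((t + e t) / 2) (4 * ((e t - t) / 2))) :=
        measure_mono hcov
    _ ≤ ∑' t : u, volume (Metric.closedBall (((t:ℝ) + e t) / 2) (4 * ((e t - t) / 2))) :=
        measure_biUnion_le _ hucount _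
    _ ≤ ∑' t : u, 64 * ∫⁻ v in Icc (t:ℝ) (e t), ENNReal.ofReal (Sd a T s n q v) :=
        ENNReal.tsum_le_tsum fun t => hle t t.2
    _ = 64 * ∑' t : u, ∫⁻ v in Icc (t:ℝ) (e t), ENNReal.ofReal (Sd a T s n q v) :=
        ENNReal.tsum_mul_left
    _ = 64 * ∫⁻ v in ⋃ t ∈ u, Icc (t:ℝ) (e t), ENNReal.ofReal (Sd a T s n q v) := by
        rw [lintegral_biUnion hucount (fun _ _ => measurableSet_Icc) hud']
    _ ≤ 64 * ∫⁻ v in Icc (0:ℝ) 3, ENNReal.ofReal (Sd a T s n q v) := by
        gcongr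
        refine iUnion₂_subset fun t ht => ?_
        have h1 := he2 t (hu ht)
        have h2 : t ∈ Icc (0:ℝ) 1 := (hu ht).1
        apply Icc_subset_Icc h2.1
        linarith [h2.2]
    _ = _ := by
        have h3 : ∫⁻ v in Icc (0:ℝ) 3, ENNReal.ofReal (Sd a T s n q v) =
            ENNReal.ofReal (∫ v in (0:ℝ)..3, Sd a T s n q v) := by
          rw [intervalIntegral.integral_of_le (by norm_num), ← integral_Icc_eq_integral_Ioc,
            ofReal_integral_eq_lintegral_ofReal]
          · exact cS.integrableOn_Icc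
          · exact Filter.Eventually.of_forall fun v => hS0 v
        have hper : Function.Periodic (Sd a T s n q) 1 := fun t => Sd_period t
        have h4 : ∫ v in (0:ℝ)..3, Sd a T s n q v = 3 * ∫ v in (0:ℝ)..1, Sd a T s n q v := by
          have e1 := hper.intervalIntegral_add_eq 1 0
          have e2 := hper.intervalIntegral_add_eq 2 0
          have a1 := intervalIntegral.integral_add_adjacent_intervals
            (cS.intervalIntegrable (μ := volume) 0 1) (cS.intervalIntegrable 1 2)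
          have a2 := intervalIntegral.integral_add_adjacent_intervals
            (cS.intervalIntegrable (μ := volume) 0 2) (cS.intervalIntegrable 2 3)
          norm_num at e1 e2
          linarith
        rw [h3, h4]
        have e32 : (64:ℝ≥0∞) = ENNReal.ofReal 64 := by norm_num
        rw [e32, ← ENNReal.ofReal_mul (by norm_num)]
        congr 1
        ring

/-- one horizontal line: the points where the cutoff is small -/
theorem line1 {a T : ℕ → ℝ} {s : ℝ} {n : ℕ} :
    volume {t : ℝ | t ∈ Icc (0:ℝ) 1 ∧ chi a T s n n t ≤ 1 / 2} ≤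
      ENNReal.ofReal (2 * ∫ t in (0:ℝ)..1, (1 - chi a T s n n t)) := by
  have cc := chi_cont a T s n n
  have c1 : Continuous (fun t => 2 * (1 - chi a T s n n t)) :=
    continuous_const.mul (continuous_const.sub cc)
  have hm : MeasurableSet {t : ℝ | t ∈ Icc (0:ℝ) 1 ∧ chi a T s n n t ≤ 1 / 2} :=
    (isClosed_Icc.inter (isClosed_le cc continuous_const)).measurableSet
  calc volume {t : ℝ | t ∈ Icc (0:ℝ) 1 ∧ chi a T s n n t ≤ 1 / 2} =
        ∫⁻ t in {t : ℝ | t ∈ Icc (0:ℝ) 1 ∧ chi a T s n n t ≤ 1 / 2}, 1 := by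
        rw [setLIntegral_one]
    _ ≤ ∫⁻ t in {t : ℝ | t ∈ Icc (0:ℝ) 1 ∧ chi a T s n n t ≤ 1 / 2},
        ENNReal.ofReal (2 * (1 - chi a T s n n t)) := by
        apply setLIntegral_mono (by fun_prop)
        intro t ht
        rw [← ENNReal.ofReal_one]
        apply ENNReal.ofReal_le_ofReal
        linarith [ht.2]
    _ ≤ ∫⁻ t in Icc (0:ℝ) 1, ENNReal.ofReal (2 * (1 - chi a T s n n t)) :=
        lintegral_mono_set fun t ht => ht.1
    _ = _ := by
        rw [← intervalIntegral.integral_const_mul, intervalIntegral.integral_of_le zero_le_one,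
          ← integral_Icc_eq_integral_Ioc, ofReal_integral_eq_lintegral_ofReal]
        · exact c1.integrableOn_Icc
        · refine Filter.Eventually.of_forall fun t => ?_
          have := chi_mem a T s n n t
          show 0 ≤ 2 * (1 - chi a T s n n t)
          linarith

/-- the area from the slices -/
theorem slices {K : Set (ℝ × ℝ)} (hK : IsCompact K) (hKs : ∀ p ∈ K, p.2 ∈ Icc (0:ℝ) 1)
    {g : ℝ → ℝ} (hg : Continuous g) (hg0 : ∀ s, 0 ≤ g s)
    (h : ∀ s, volume {t : ℝ | (t, s) ∈ K} ≤ ENNReal.ofReal (g s)) :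
    volume K ≤ ENNReal.ofReal (∫ s in (0:ℝ)..1, g s) := by
  have e1 : (volume : Measure (ℝ × ℝ)) K = ∫⁻ s, volume {t : ℝ | (t, s) ∈ K} := by
    rw [Measure.volume_eq_prod, Measure.prod_apply_symm hK.measurableSet]
    rfl
  rw [e1]
  calc ∫⁻ s, volume {t : ℝ | (t, s) ∈ K} ≤
        ∫⁻ s, (Icc (0:ℝ) 1).indicator (fun s => ENNReal.ofReal (g s)) s := by
        apply lintegral_mono
        intro s
        by_cases hs : s ∈ Icc (0:ℝ) 1
        · simp only [indicator_of_mem hs]
          exact h s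
        · simp only [indicator_of_notMem hs]
          have : {t : ℝ | (t, s) ∈ K} = ∅ := by
            rw [eq_empty_iff_forall_notMem]
            intro t ht
            exact hs (hKs _ ht)
          rw [this, measure_empty]
    _ = ∫⁻ s in Icc (0:ℝ) 1, ENNReal.ofReal (g s) := lintegral_indicator measurableSet_Icc _
    _ = _ := by
        rw [intervalIntegral.integral_of_le zero_le_one, ← integral_Icc_eq_integral_Ioc,
          ofReal_integral_eq_lintegral_ofReal]
        · exact hg.integrableOn_Icc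
        · exact Filter.Eventually.of_forall fun s => hg0 s

/-- the points with a small cutoff -/
def K1 (a T : ℕ → ℝ) (n : ℕ) : Set (ℝ × ℝ) :=
  {p | p.1 ∈ Icc (0:ℝ) 1 ∧ p.2 ∈ Icc (0:ℝ) 1 ∧ chi a T p.2 n n p.1 ≤ 1 / 2}

/-- the points with much distortion in front of them -/
def K2 (a T : ℕ → ℝ) (n : ℕ) (q : ℝ) : Set (ℝ × ℝ) :=
  {p | p.1 ∈ Icc (0:ℝ) 1 ∧ p.2 ∈ Icc (0:ℝ) 1 ∧ Mx a T p.2 n q p.1}

/-- the points with a small derivative -/
def K3 (a : ℕ → ℝ) (n : ℕ) (G : ℝ) : Set (ℝ × ℝ) :=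
  {p | p.1 ∈ Icc (0:ℝ) 1 ∧ p.2 ∈ Icc (0:ℝ) 1 ∧ |D a p.2 (n + 1) p.1| ≤ G}

theorem K1_compact (a T : ℕ → ℝ) (n : ℕ) : IsCompact (K1 a T n) := by
  have h1 : IsCompact (Icc (0:ℝ) 1 ×ˢ Icc (0:ℝ) 1) := isCompact_Icc.prod isCompact_Icc
  have h2 : IsClosed {p : ℝ × ℝ | chi a T p.2 n n p.1 ≤ 1 / 2} :=
    isClosed_le ((chi2_cont a T n n).comp (by fun_prop : Continuous fun p : ℝ × ℝ => (p.2, p.1)))
      continuous_const
  refine (h1.inter_right h2).of_isClosed_subset ?_ ?_
  · have : K1 a T n = (Icc (0:ℝ) 1 ×ˢ Icc (0:ℝ) 1) ∩ {p : ℝ × ℝ | chi a T p.2 n n p.1 ≤ 1 / 2} := by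
      ext p
      simp only [K1, mem_ofPred_eq, mem_inter_iff, mem_prod]
      tauto
    rw [this]
    exact (h1.inter_right h2).isClosed
  · rintro p ⟨h3, h4, h5⟩
    exact ⟨⟨h3, h4⟩, h5⟩

theorem K3_compact (a : ℕ → ℝ) (n : ℕ) (G : ℝ) : IsCompact (K3 a n G) := by
  have h1 : IsCompact (Icc (0:ℝ) 1 ×ˢ Icc (0:ℝ) 1) := isCompact_Icc.prod isCompact_Icc
  have h2 : IsClosed {p : ℝ × ℝ | |D a p.2 (n + 1) p.1| ≤ G} :=
    isClosed_le ((D2_cont a (n + 1)).comp
      (by fun_prop : Continuous fun p : ℝ × ℝ => (p.2, p.1))).abs continuous_const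
  have : K3 a n G = (Icc (0:ℝ) 1 ×ˢ Icc (0:ℝ) 1) ∩ {p : ℝ × ℝ | |D a p.2 (n + 1) p.1| ≤ G} := by
    ext p
    simp only [K3, mem_ofPred_eq, mem_inter_iff, mem_prod]
    tauto
  rw [this]
  exact h1.inter_right h2

theorem param_cont3 {f : ((ℝ × ℝ) × ℝ) × ℝ → ℝ} (hf : Continuous f) :
    Continuous (fun p => ∫ θ in (0:ℝ)..1, f (p, θ)) :=
  intervalIntegral.continuous_parametric_intervalIntegral_of_continuous'
    (f := fun p θ => f (p, θ)) hf 0 1

theorem K2_compact {a T : ℕ → ℝ} (hT : ∀ k, 16 ≤ T k) {q : ℝ} (hq : 1 ≤ q) (n : ℕ) :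
    IsCompact (K2 a T n q) := by
  set R : Set ((ℝ × ℝ) × ℝ) := (Icc (0:ℝ) 1 ×ˢ Icc (0:ℝ) 1) ×ˢ Icc (0:ℝ) 3 with hR
  have hRc : IsCompact R := (isCompact_Icc.prod isCompact_Icc).prod isCompact_Icc
  set Q : Set ((ℝ × ℝ) × ℝ) := {p | p.1.1 ≤ p.2} ∩ {p | p.2 ≤ p.1.1 + 2} ∩
    {p | 1 / 8 ≤ ∫ θ in (0:ℝ)..1, Sd a T p.1.2 n q (p.1.1 + (p.2 - p.1.1) * θ)} with hQ
  have hQc : IsClosed Q := by
    have h2 : IsClosed {p : (ℝ × ℝ) × ℝ | p.1.1 ≤ p.2} :=
      isClosed_le (by fun_prop) (by fun_prop)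
    have h3 : IsClosed {p : (ℝ × ℝ) × ℝ | p.2 ≤ p.1.1 + 2} :=
      isClosed_le (by fun_prop) (by fun_prop)
    have h4 : Continuous (fun p : (ℝ × ℝ) × ℝ =>
        ∫ θ in (0:ℝ)..1, Sd a T p.1.2 n q (p.1.1 + (p.2 - p.1.1) * θ)) := by
      have f : Continuous (fun z : ((ℝ × ℝ) × ℝ) × ℝ =>
          ((z.1.1.2, z.1.1.1 + (z.1.2 - z.1.1.1) * z.2) : ℝ × ℝ)) := by fun_prop
      have h5 := (Sd2_cont (a := a) hT hq n).comp f
      exact param_cont3 h5
    exact (h2.inter h3).inter (isClosed_le continuous_const h4)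
  have h5 : K2 a T n q = Prod.fst '' (R ∩ Q) := by
    ext p
    constructor
    · rintro ⟨h1, h2, e, h4, h5, h6⟩
      refine ⟨(p, e), ⟨⟨⟨h1, h2⟩, ?_⟩, ⟨⟨h4, h5⟩, h6⟩⟩, rfl⟩
      exact ⟨h1.1.trans h4, by linarith [h1.2]⟩
    · rintro ⟨⟨p', e⟩, ⟨⟨⟨h1, h2⟩, _⟩, ⟨⟨h4, h5⟩, h6⟩⟩, rfl⟩
      exact ⟨h1, h2, e, h4, h5, h6⟩
  rw [h5]
  exact (hRc.inter_right hQc).image continuous_fst

/-- the area of the exceptional set in the unit square -/
theorem vol_K {a T : ℕ → ℝ} (ha : ∀ k, 1 ≤ |a k|) (hT : ∀ k, 16 ≤ T k)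
    {q : ℝ} (hq : 1 ≤ q) {n : ℕ} (hn : 1 ≤ n) :
    volume (K1 a T n ∪ K2 a T n q) ≤
      ENNReal.ofReal (2 * Bz a T n + 192 * (64 * KK * π ^ 2 * Sz T q n)) := by
  have hKK := KK_one
  have c1 := chi2_cont a T n n
  have c2 := Sd2_cont (a := a) hT hq n
  have hnn1 : ∀ s, 0 ≤ ∫ t in (0:ℝ)..1, (1 - chi a T s n n t) := fun s =>
    intervalIntegral.integral_nonneg zero_le_one fun t _ => by
      have := chi_mem a T s n n t
      linarith
  have hnn2 : ∀ s, 0 ≤ ∫ t in (0:ℝ)..1, Sd a T s n q t := fun s =>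
    intervalIntegral.integral_nonneg zero_le_one fun t _ => Sd_nonneg hq t
  have p1 : Continuous (fun s => ∫ t in (0:ℝ)..1, (1 - chi a T s n n t)) :=
    param_cont (continuous_const.sub c1)
  have p2 : Continuous (fun s => ∫ t in (0:ℝ)..1, Sd a T s n q t) := param_cont c2
  set g : ℝ → ℝ := fun s => 2 * (∫ t in (0:ℝ)..1, (1 - chi a T s n n t)) +
    192 * ∫ t in (0:ℝ)..1, Sd a T s n q t with hg
  have hgc : Continuous g := (continuous_const.mul p1).add (continuous_const.mul p2)
  have hg0 : ∀ s, 0 ≤ g s := fun s => by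
    have := hnn1 s
    have := hnn2 s
    simp only [hg]
    positivity
  have h1 := slices ((K1_compact a T n).union (K2_compact hT hq n))
    (by
      rintro p (hp | hp)
      · exact hp.2.1
      · exact hp.2.1) hgc hg0 (by
      intro s
      have e : {t : ℝ | (t, s) ∈ K1 a T n ∪ K2 a T n q} ⊆
          {t : ℝ | t ∈ Icc (0:ℝ) 1 ∧ chi a T s n n t ≤ 1 / 2} ∪
          {t : ℝ | t ∈ Icc (0:ℝ) 1 ∧ Mx a T s n q t} := by
        rintro t (ht | ht)
        · exact Or.inl ⟨ht.1, ht.2.2⟩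
        · exact Or.inr ⟨ht.1, ht.2.2⟩
      refine (measure_mono e).trans ((measure_union_le _ _).trans ?_)
      refine (add_le_add line1 (line hT hq)).trans (le_of_eq ?_)
      rw [← ENNReal.ofReal_add]
      · have := hnn1 s
        positivity
      · have := hnn2 s
        positivity)
  refine h1.trans (ENNReal.ofReal_le_ofReal ?_)
  simp only [hg]
  rw [intervalIntegral.integral_add ((p1.const_mul 2).intervalIntegrable _ _)
    ((p2.const_mul 192).intervalIntegrable _ _), intervalIntegral.integral_const_mul,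
    intervalIntegral.integral_const_mul]
  have h2 := exp_chi ha hT hn
  have h3 : ∫ s in (0:ℝ)..1, ∫ t in (0:ℝ)..1, Sd a T s n q t ≤ 64 * KK * π ^ 2 * Sz T q n := by
    unfold Sd
    simp only [intervalIntegral.integral_const_mul]
    apply mul_le_mul_of_nonneg_left _ (by positivity)
    have e1 : ∫ s in (0:ℝ)..1, ∫ t in (0:ℝ)..1, ∑ k ∈ Finset.range n, ck a T s n q k t =
        ∑ k ∈ Finset.range n, ∫ s in (0:ℝ)..1, ∫ t in (0:ℝ)..1, ck a T s n q k t := by
      rw [← intervalIntegral.integral_finsetSum]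
      · apply intervalIntegral.integral_congr
        intro s _
        simp only
        rw [intervalIntegral.integral_finsetSum]
        intro k _
        exact (ck_cont hT s hq n k).intervalIntegrable _ _
      · intro k _
        exact (param_cont (ck2_cont hT hq n k)).intervalIntegrable _ _
    rw [e1]
    unfold Sz
    apply Finset.sum_le_sum
    intro k hk
    rw [Finset.mem_range] at hk
    exact exp_ck ha hT hq hk
  linarith

/-- the covering map -/
noncomputable def pr (p : ℝ × ℝ) : T2 := ((p.1 : UnitAddCircle), (p.2 : UnitAddCircle))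

theorem pr_cont : Continuous pr := coe_cont2

/-- the area of the projection of a compact subset of the unit square -/
theorem vol_pr {K : Set (ℝ × ℝ)} (hK : IsCompact K)
    (hKs : K ⊆ Icc (0:ℝ) 1 ×ˢ Icc (0:ℝ) 1) : volume (pr '' K) ≤ volume K := by
  have hm : MeasurableSet (pr '' K) := (hK.image pr_cont).isClosed.measurableSet
  have h1 : MeasurePreserving pr
      (((volume : Measure ℝ).restrict (Ioc 0 1)).prod ((volume : Measure ℝ).restrict (Ioc 0 1)))
      (volume : Measure T2) := by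
    have h := UnitAddCircle.measurePreserving_mk 0
    rw [zero_add] at h
    exact h.prod h
  rw [← h1.measure_preimage hm.nullMeasurableSet, Measure.prod_restrict,
    Measure.restrict_apply (h1.measurable hm)]
  have hsub : pr ⁻¹' (pr '' K) ∩ Ioc (0:ℝ) 1 ×ˢ Ioc (0:ℝ) 1 ⊆
      K ∪ (({1} : Set ℝ) ×ˢ univ ∪ (univ : Set ℝ) ×ˢ {1}) := by
    have key : ∀ u v : ℝ, u ∈ Icc (0:ℝ) 1 → v ∈ Ioc (0:ℝ) 1 →
        (u : UnitAddCircle) = (v : UnitAddCircle) → u = v ∨ v = 1 := by
      intro u v hu hv huv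
      have h3 : ((u - v : ℝ) : UnitAddCircle) = 0 := by
        rw [AddCircle.coe_sub, huv, sub_self]
      rw [AddCircle.coe_eq_zero_iff] at h3
      obtain ⟨k, hk⟩ := h3
      rw [zsmul_eq_mul, mul_one] at hk
      have h4 : (k:ℝ) < 1 := by linarith [hu.2, hv.1]
      have h5 : (-1:ℝ) ≤ k := by linarith [hu.1, hv.2]
      have h6 : k < 1 := by exact_mod_cast h4
      have h7 : -1 ≤ k := by exact_mod_cast h5
      have h8 : k = 0 ∨ k = -1 := by omega
      rcases h8 with h8 | h8
      · left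
        rw [h8] at hk
        push_cast at hk
        linarith
      · right
        rw [h8] at hk
        push_cast at hk
        linarith [hu.1, hv.2]
    rintro ⟨x, y⟩ ⟨⟨⟨u, v⟩, huv, hpr⟩, hx, hy⟩
    have h2 := hKs huv
    have h3 : (u : UnitAddCircle) = (x : UnitAddCircle) := congrArg Prod.fst hpr
    have h4 : (v : UnitAddCircle) = (y : UnitAddCircle) := congrArg Prod.snd hpr
    rcases key u x h2.1 hx h3 with h5 | h5
    · rcases key v y h2.2 hy h4 with h6 | h6
      · left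
        rw [← h5, ← h6]
        exact huv
      · right
        right
        exact ⟨mem_univ _, h6⟩
    · right
      left
      exact ⟨h5, mem_univ _⟩
  refine (measure_mono hsub).trans ?_
  refine (measure_union_le _ _).trans ?_
  have h0 : (volume.prod volume : Measure (ℝ × ℝ)) (({1} : Set ℝ) ×ˢ univ ∪ (univ : Set ℝ) ×ˢ {1}) = 0 := by
    apply measure_union_null
    · rw [Measure.prod_prod, Real.volume_singleton, zero_mul]
    · rw [Measure.prod_prod, Real.volume_singleton, mul_zero]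
  rw [h0, add_zero]
  exact le_rfl

/-- outside the set `K`, every point is on a short horizontal segment whose image under the `n`th
iterate goes around the torus -/
def BadSet (a : ℝ) (n : ℕ) (r : ℝ) (K : Set T2) : Prop :=
  ∀ p, p ∉ K → ∃ t s : ℝ, ((t : UnitAddCircle), (s : UnitAddCircle)) = p ∧
    HasCurve ((S a)^[n] '' seg r t s)

theorem badset {a : ℝ} {T : ℕ → ℝ} (hT : ∀ k, 16 ≤ T k) (hTm : ∀ k, T k ≤ T (k + 1)) {q : ℝ}
    (hq : 1 ≤ q) (hqT : ∀ k, q ^ 2 ≤ 9 / 16 * T k) {n : ℕ} (hn : 1 ≤ n) {G : ℝ} (hG : 0 < G) :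
    BadSet a n (3 / G) (pr '' (K1 (fun _ => a) T n ∪ K2 (fun _ => a) T n q ∪
      K3 (fun _ => a) n G)) := by
  intro p hp
  have hrep : ∀ x : UnitAddCircle, ∃ t ∈ Icc (0:ℝ) 1, (t : UnitAddCircle) = x := by
    intro x
    induction x using QuotientAddGroup.induction_on with
    | H t =>
      refine ⟨Int.fract t, ⟨Int.fract_nonneg t, (Int.fract_lt_one t).le⟩, ?_⟩
      have e : t - Int.fract t = ⌊t⌋ := by
        have := Int.self_sub_floor t
        linarith
      have h1 : ((t - Int.fract t : ℝ) : UnitAddCircle) = 0 := by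
        rw [AddCircle.coe_eq_zero_iff]
        exact ⟨⌊t⌋, by rw [e]; simp⟩
      rw [AddCircle.coe_sub, sub_eq_zero] at h1
      exact h1.symm
  obtain ⟨p1, p2⟩ := p
  obtain ⟨t, ht, rfl⟩ := hrep p1
  obtain ⟨s, hs, rfl⟩ := hrep p2
  refine ⟨t, s, rfl, ?_⟩
  have h1 : (t, s) ∉ K1 (fun _ => a) T n ∪ K2 (fun _ => a) T n q ∪ K3 (fun _ => a) n G :=
    fun h => hp ⟨(t, s), h, rfl⟩
  rw [mem_union, mem_union, not_or, not_or] at h1
  have hc : 1 / 2 ≤ chi (fun _ => a) T s n n t := by
    by_contra hcon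
    rw [not_le] at hcon
    exact h1.1.1 ⟨ht, hs, hcon.le⟩
  have hm : ¬ Mx (fun _ => a) T s n q t := fun h => h1.1.2 ⟨ht, hs, h⟩
  have hD : G < |D (fun _ => a) s (n + 1) t| := by
    by_contra hcon
    rw [not_lt] at hcon
    exact h1.2 ⟨ht, hs, hcon⟩
  obtain ⟨e, h2, h3, h4, h5⟩ := good_window hT hTm hq hqT hc hm
  refine curve_of hT hn h2 ?_ h4 h5
  rw [le_div_iff₀ hG]
  have : 0 ≤ e - t := by linarith
  nlinarith

/-- the constant -/
noncomputable def C1 : ℝ := 120 + 49152 * KK * π ^ 2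

theorem C1_ge : 120 ≤ C1 := by
  have := KK_one
  unfold C1
  have : 0 ≤ 49152 * KK * π ^ 2 := by positivity
  linarith

/-- the area of the set of points with a small derivative -/
theorem vol_K3 {a : ℝ} (ha : 1 ≤ |a|) {n : ℕ} (hn : 1 ≤ n) {h : ℝ} (hh0 : 0 ≤ h) (hh1 : h ≤ 1) :
    volume (K3 (fun _ => a) n (|a| ^ ((1 - h) * n) / 2)) ≤
      ENNReal.ofReal (48 * (n * (1 + log |a|) / |a| ^ 2) + 51 * |a| ^ (-h / 2)) := by
  have ha0 : 0 < |a| := by linarith
  have h1 := grow ha (a := fun _ => a) (fun _ => le_rfl) hn hh0 hh1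
  have hG : 0 < |a| ^ ((1 - h) * n) := by positivity
  have e : (∏ k ∈ Finset.range n, |a|) * (|a| ^ (-h)) ^ n = |a| ^ ((1 - h) * n) := by
    have e1 : |a| * |a| ^ (-h) = |a| ^ (1 - h) := by
      rw [sub_eq_add_neg, Real.rpow_add ha0, Real.rpow_one]
    rw [Finset.prod_const, Finset.card_range, ← mul_pow, e1, ← Real.rpow_natCast,
      ← Real.rpow_mul ha0.le]
  rw [e] at h1
  refine le_trans ?_ h1
  have hsub : K3 (fun _ => a) n (|a| ^ ((1 - h) * n) / 2) ⊆
      {p : ℝ × ℝ | p ∈ Qu ∧ |D (fun _ => a) p.2 (n + 1) p.1| < |a| ^ ((1 - h) * n)} ∪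
        (({0} : Set ℝ) ×ˢ univ ∪ (univ : Set ℝ) ×ˢ {0}) := by
    rintro ⟨x, y⟩ ⟨hx, hy, hD⟩
    rcases hx.1.lt_or_eq with hx1 | hx1
    · rcases hy.1.lt_or_eq with hy1 | hy1
      · left
        exact ⟨⟨⟨hx1, hx.2⟩, ⟨hy1, hy.2⟩⟩, hD.trans_lt (by linarith)⟩
      · right
        right
        exact ⟨mem_univ _, hy1.symm⟩
    · right
      left
      exact ⟨hx1.symm, mem_univ _⟩
  refine (measure_mono hsub).trans ((measure_union_le _ _).trans ?_)
  have h0 : (volume : Measure (ℝ × ℝ)) (({0} : Set ℝ) ×ˢ univ ∪ (univ : Set ℝ) ×ˢ {0}) = 0 := by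
    rw [Measure.volume_eq_prod]
    apply measure_union_null
    · rw [Measure.prod_prod, Real.volume_singleton, zero_mul]
    · rw [Measure.prod_prod, Real.volume_singleton, mul_zero]
  rw [h0, add_zero]

/-- **the exceptional set up to times `|a| ^ (2 - ε)`** -/
theorem exists_bad {a : ℝ} (ha : 1 ≤ |a|) {n : ℕ} (hn : 1 ≤ n) {h : ℝ} (hh0 : 0 ≤ h)
    (hh1 : h ≤ 1) :
    ∃ K : Set T2, IsClosed K ∧ BadSet a n (6 * |a| ^ (-(1 - h) * n)) K ∧
      volume K ≤ ENNReal.ofReal (C1 * ((1 + log |a|) * (1 / √|a| + √n / |a|) +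
        |a| ^ (-h / 2))) := by
  have hK := KK_one
  have hpi := pi_pos
  set A : ℝ := |a| with hA
  have hA0 : 0 < A := by linarith
  have hsA : 0 < √A := Real.sqrt_pos.2 hA0
  have hn0 : (1:ℝ) ≤ n := by exact_mod_cast hn
  have hsn : 1 ≤ √n := Real.one_le_sqrt.2 hn0
  have hlA : 0 ≤ log A := log_nonneg ha
  set δ : ℝ := 1 / √A + √n / A with hδ
  have hδ0 : 0 < δ := by positivity
  have hC1 := C1_ge
  have hr0 : 0 ≤ A ^ (-h / 2) := by positivity
  by_cases hcase : δ ≤ 1 / 16
  · have h1 : 1 / √A ≤ 1 / 16 := by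
      have : 0 ≤ √n / A := by positivity
      linarith
    have h2 : √n / A ≤ 1 / 16 := by
      have : 0 ≤ 1 / √A := by positivity
      linarith
    have h3 : 16 ≤ √A := by
      rw [div_le_div_iff₀ hsA (by norm_num)] at h1
      linarith
    have h4 : 16 ≤ A / √n := by
      rw [div_le_div_iff₀ hA0 (by norm_num)] at h2
      rw [le_div_iff₀ (by linarith)]
      linarith
    set τ : ℝ := min (√A) (A / √n) with hτdef
    have hτ : 16 ≤ τ := le_min h3 h4
    have hτ0 : 0 < τ := by linarith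
    have hAs : √A * √A = A := Real.mul_self_sqrt hA0.le
    have h5 : 1 / τ ≤ δ := by
      rcases min_choice (√A) (A / √n) with h | h
      · rw [hτdef, h, hδ]
        have : 0 ≤ √n / A := by positivity
        linarith
      · rw [hτdef, h, hδ, one_div_div]
        have : 0 ≤ 1 / √A := by positivity
        linarith
    have h6 : τ / A ≤ δ := by
      have h7 : τ / A ≤ √A / A := div_le_div_of_nonneg_right (min_le_left _ _) hA0.le
      have h8 : √A / A = 1 / √A := by
        rw [div_eq_div_iff hA0.ne' hsA.ne', hAs, one_mul]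
      have : 0 ≤ √n / A := by positivity
      rw [h8] at h7
      linarith
    have hnn : (n:ℝ) = √n * √n := (Real.mul_self_sqrt (by linarith)).symm
    have h7 : n * (τ / A ^ 2 * (1 + log A)) ≤ (1 + log A) * δ := by
      have h8 : n * (τ / A ^ 2) ≤ √n / A := by
        have h9 : τ ≤ A / √n := min_le_right _ _
        calc n * (τ / A ^ 2) ≤ n * (A / √n / A ^ 2) := by gcongr
          _ = √n / A := by
              rw [hnn]
              rw [Real.sqrt_mul_self (Real.sqrt_nonneg _)]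
              field_simp
      calc n * (τ / A ^ 2 * (1 + log A)) = (1 + log A) * (n * (τ / A ^ 2)) := by ring
        _ ≤ (1 + log A) * δ := by
            apply mul_le_mul_of_nonneg_left _ (by linarith)
            have : 0 ≤ 1 / √A := by positivity
            linarith
    have hsq : 4 ≤ √τ := by
      apply Real.le_sqrt_of_sq_le
      linarith
    have hqq : (3 / 4 * √τ) ^ 2 = 9 / 16 * τ := by
      rw [mul_pow, Real.sq_sqrt hτ0.le]
      norm_num
    set T : ℕ → ℝ := fun _ => τ with hT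
    have hT16 : ∀ k, 16 ≤ T k := fun _ => hτ
    have hq1 : 1 ≤ 3 / 4 * √τ := by linarith
    have hG : 0 < A ^ ((1 - h) * n) / 2 := by positivity
    have hK12 : IsCompact (K1 (fun _ => a) T n ∪ K2 (fun _ => a) T n (3 / 4 * √τ)) :=
      (K1_compact _ _ _).union (K2_compact hT16 hq1 _)
    have hKc : IsCompact (K1 (fun _ => a) T n ∪ K2 (fun _ => a) T n (3 / 4 * √τ) ∪
        K3 (fun _ => a) n (A ^ ((1 - h) * n) / 2)) := hK12.union (K3_compact _ _ _)
    refine ⟨pr '' (K1 (fun _ => a) T n ∪ K2 (fun _ => a) T n (3 / 4 * √τ) ∪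
        K3 (fun _ => a) n (A ^ ((1 - h) * n) / 2)), (hKc.image pr_cont).isClosed, ?_, ?_⟩
    · have h8 := badset (a := a) hT16 (fun _ => le_rfl) (q := 3 / 4 * √τ) hq1 (fun _ => hqq.le)
        hn hG
      have e : 3 / (A ^ ((1 - h) * n) / 2) = 6 * A ^ (-(1 - h) * n) := by
        rw [neg_mul, Real.rpow_neg hA0.le]
        field_simp
        norm_num
      rwa [e] at h8
    · have h8 := vol_K (a := fun _ => a) (fun _ => ha) hT16 (q := 3 / 4 * √τ) hq1 hn
      have h8' := vol_K3 ha hn hh0 hh1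
      have h9 := vol_pr hKc (by
        rintro p ((hp | hp) | hp)
        · exact ⟨hp.1, hp.2.1⟩
        · exact ⟨hp.1, hp.2.1⟩
        · exact ⟨hp.1, hp.2.1⟩)
      have h8'' := (measure_union_le (μ := volume) _ _).trans (add_le_add h8 h8')
      refine h9.trans (h8''.trans ?_)
      have hB : Bz (fun _ => a) T n ≤ 3 * (n * (τ / A ^ 2 * (1 + log A)) + τ / A) := by
        unfold Bz
        apply mul_le_mul_of_nonneg_left _ (by norm_num)
        refine add_le_add ?_ le_rfl
        calc ∑ k ∈ Finset.range (n - 1), bz (fun _ => a) T k ≤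
              ∑ k ∈ Finset.range (n - 1), τ / A ^ 2 * (1 + log A) := by
              apply Finset.sum_le_sum
              intro k _
              unfold bz
              exact bz_const ha hτ le_rfl le_rfl
          _ = ((n - 1 : ℕ) : ℝ) * (τ / A ^ 2 * (1 + log A)) := by
              rw [Finset.sum_const, Finset.card_range, nsmul_eq_mul]
          _ ≤ _ := by
              have h2 : ((n - 1 : ℕ) : ℝ) ≤ n := by
                exact_mod_cast (by omega : n - 1 ≤ n)
              apply mul_le_mul_of_nonneg_right h2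
              positivity
      have hS : Sz T (3 / 4 * √τ) n ≤ 4 / τ := Sz_le hτ0 (fun _ => le_rfl) (by linarith) n
      have hS0 : 0 ≤ Sz T (3 / 4 * √τ) n := by
        unfold Sz
        apply Finset.sum_nonneg
        intro k _
        have : 0 < T k := hτ0
        positivity
      have hB0 : 0 ≤ Bz (fun _ => a) T n := by
        unfold Bz
        have h10 : 0 ≤ ∑ k ∈ Finset.range (n - 1), bz (fun _ => a) T k :=
          Finset.sum_nonneg fun k _ => bz_nonneg hT16 k
        have h11 : 0 ≤ T (n - 1) / |a| := by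
          have : 0 < T (n - 1) := hτ0
          positivity
        positivity
      rw [← ENNReal.ofReal_add (by positivity) (by positivity)]
      apply ENNReal.ofReal_le_ofReal
      have h10 : 192 * (64 * KK * π ^ 2 * Sz T (3 / 4 * √τ) n) ≤ 49152 * KK * π ^ 2 * δ := by
        calc 192 * (64 * KK * π ^ 2 * Sz T (3 / 4 * √τ) n) =
              12288 * KK * π ^ 2 * Sz T (3 / 4 * √τ) n := by ring
          _ ≤ 12288 * KK * π ^ 2 * (4 / τ) := mul_le_mul_of_nonneg_left hS (by positivity)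
          _ = 49152 * KK * π ^ 2 * (1 / τ) := by ring
          _ ≤ _ := mul_le_mul_of_nonneg_left h5 (by positivity)
      set Λ := (1 + log A) * δ with hΛ
      have hΛδ : δ ≤ Λ := by
        rw [hΛ]
        nlinarith
      have h11 : n * (1 + log A) / A ^ 2 ≤ Λ := by
        have h12 : (n:ℝ) / A ^ 2 ≤ δ := by
          have e : (n:ℝ) / A ^ 2 = (√n / A) * (√n / A) := by
            rw [div_mul_div_comm, ← hnn, ← pow_two]
          rw [e]
          have h13 : 0 ≤ √n / A := by positivity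
          have h14 : √n / A ≤ δ := by
            have : 0 ≤ 1 / √A := by positivity
            linarith
          nlinarith
        calc n * (1 + log A) / A ^ 2 = (1 + log A) * (n / A ^ 2) := by ring
          _ ≤ _ := mul_le_mul_of_nonneg_left h12 (by linarith)
      have hKδ : 49152 * KK * π ^ 2 * δ ≤ 49152 * KK * π ^ 2 * Λ :=
        mul_le_mul_of_nonneg_left hΛδ (by positivity)
      have hr1 : 0 ≤ 49152 * KK * π ^ 2 * A ^ (-h / 2) := by positivity
      unfold C1
      linarith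
  · rw [not_le] at hcase
    refine ⟨univ, isClosed_univ, fun p hp => absurd (mem_univ p) hp, ?_⟩
    rw [measure_univ, ← ENNReal.ofReal_one]
    apply ENNReal.ofReal_le_ofReal
    have h8 : 1 / 16 ≤ (1 + log A) * δ := by nlinarith
    nlinarith

end Pool.Agent.U785.WB
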