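import Mathlib
import Pool.Agent.U785.WB.Meas
import Pool.Agent.N317.SM.Struct

set_option autoImplicit false

/-!
# Invariant sets, mixing at finite scales and islands up to times `|a| ^ (2 - ε)`
-/

namespace Pool.Agent.U785.WB

open Real MeasureTheory Set Function
open Pool.Agent.TH705.SM (T2 S Si S_cont Si_S)
open Pool.Agent.Y332.SM
open scoped ENNReal

/-- an invariant set without crossing curves -/
theorem sub_of_not {a r : ℝ} {n : ℕ} {K : Set T2} (hK : BadSet a n r K) (hr : 0 ≤ r) {B : Set T2}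
    (hB : S a ⁻¹' B = B) (hno : ¬ HasCurve B) : B ⊆ K ∪ hnbd r (frontier B) := by
  intro p hp
  by_contra hcon
  rw [mem_union, not_or] at hcon
  obtain ⟨t, s, rfl, hc⟩ := hK p hcon.1
  apply hno
  refine hc.mono ?_
  rintro _ ⟨x, hx, rfl⟩
  exact iter_mem hB (seg_sub hr hp hcon.2 hx) n

/-- the horizontal or the vertical neighbourhood of the boundary is large -/
theorem alt {a r : ℝ} {n : ℕ} {K : Set T2} (hK : BadSet a n r K) (hr : 0 ≤ r) {A : Set T2}
    (hA : S a ⁻¹' A = A) :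
    volume A ≤ volume K + volume (hnbd r (frontier A)) ∨
    volume Aᶜ ≤ volume K + volume (hnbd r (Prod.swap ⁻¹' frontier A)) := by
  by_cases h1 : HasCurve A
  · right
    have h2 : ¬ HasCurve (Prod.swap ⁻¹' Aᶜ) := by
      intro h2
      obtain ⟨p, hp1, hp2⟩ := meet h1 h2
      exact hp2 hp1
    have h3 := (measure_mono (sub_of_not hK hr (swap_inv hA) h2)).trans
      (measure_union_le (μ := volume) _ _)
    rw [vol_swap, front_swap] at h3
    exact h3
  · left
    exact (measure_mono (sub_of_not hK hr hA h1)).trans (measure_union_le _ _)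

theorem alt_len {a r : ℝ} {n : ℕ} {K : Set T2} (hK : BadSet a n r K) (hr : 0 < r) {A : Set T2}
    (hA : S a ⁻¹' A = A) {η : ℝ≥0∞} (h1 : η ≤ volume A) (h2 : η ≤ volume Aᶜ) :
    η ≤ volume K + ENNReal.ofReal (4 * r) * Measure.hausdorffMeasure 1 (frontier A) := by
  rcases alt hK hr.le hA with h | h
  · refine h1.trans (h.trans (add_le_add_right (vol_hnbd hr _) _))
  · refine h2.trans (h.trans (add_le_add_right ((vol_hnbd hr _).trans ?_) _))
    exact mul_le_mul_right (haus_swap _) _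

theorem alt_thick {a r : ℝ} {n : ℕ} {K : Set T2} (hK : BadSet a n r K) (hr : 0 ≤ r) {A : Set T2}
    (hA : S a ⁻¹' A = A) {η : ℝ≥0∞} (h1 : η ≤ volume A) (h2 : η ≤ volume Aᶜ) :
    η ≤ volume K + volume (Metric.cthickening r (frontier A)) := by
  rcases alt hK hr hA with h | h
  · exact h1.trans (h.trans (add_le_add_right (vol_hnbd_thick _ _).1 _))
  · exact h2.trans (h.trans (add_le_add_right (vol_hnbd_thick _ _).2 _))

theorem seg_dist {r t s : ℝ} {x : T2} (hx : x ∈ seg r t s) :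
    dist ((t : UnitAddCircle), (s : UnitAddCircle)) x ≤ r := by
  obtain ⟨u, hu, rfl⟩ := hx
  rw [Prod.dist_eq]
  simp only [dist_self]
  have h1 : dist (t : UnitAddCircle) (u : UnitAddCircle) ≤ r := by
    rw [dist_eq_norm, ← AddCircle.coe_sub]
    refine (norm_coe_le _).trans ?_
    rw [abs_sub_comm]
    exact hu
  exact max_le h1 (dist_nonneg.trans h1)

/-- finite-scale mixing -/
theorem mixing {a r r' : ℝ} {n m : ℕ} {K K' : Set T2} (hK : BadSet a n r K)
    (hK' : BadSet a m r' K') {p q : T2} (hp : p ∉ K) (hq : Prod.swap q ∉ K') :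
    ∃ p' q' : T2, dist p p' ≤ r ∧ dist q q' ≤ r' ∧ (S a)^[n + m] p' = q' := by
  obtain ⟨t, s, rfl, c1⟩ := hK p hp
  obtain ⟨t', s', h', c2⟩ := hK' _ hq
  have c3 : HasCurve (Prod.swap ⁻¹' ((Si a)^[m] '' (Prod.swap '' seg r' t' s'))) := by
    refine c2.mono ?_
    rintro _ ⟨x, hx, rfl⟩
    refine ⟨Prod.swap x, ⟨x, hx, rfl⟩, ?_⟩
    rw [swap_S_iter]
  obtain ⟨z, ⟨x, hx, hxz⟩, ⟨_, ⟨y, hy, rfl⟩, hyz⟩⟩ := meet c1 c3
  refine ⟨x, Prod.swap y, seg_dist hx, ?_, ?_⟩
  · have h5 := seg_dist hy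
    rw [h'] at h5
    rw [Prod.dist_eq] at h5 ⊢
    rw [max_comm]
    exact h5
  · rw [add_comm, iterate_add_apply, hxz, ← hyz, S_iter_Si]

/-- good points in a set away from the frontier -/
theorem good_curve {a r : ℝ} {n : ℕ} {K : Set T2} (hK : BadSet a n r K) (hr : 0 ≤ r) {B : Set T2}
    {p : T2} (hb : p ∉ K) (hp : p ∈ B) (hf : p ∉ hnbd r (frontier B)) :
    HasCurve ((S a)^[n] '' B) := by
  obtain ⟨t, s, rfl, hc⟩ := hK p hb
  exact hc.mono (image_mono (seg_sub hr hp hf))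

/-- a domain which returns to itself or avoids itself, and is not thin -/
theorem returning {a : ℝ} (ha : 256 ≤ |a|) {r : ℝ} {n : ℕ} {K : Set T2} (hK : BadSet a n r K)
    (hr : 0 ≤ r) {D : Set T2} (hDo : IsOpen D)
    (hDc : IsPreconnected D) (hD : ∀ k, (S a)^[k] '' D = D ∨ Disjoint ((S a)^[k] '' D) D)
    {p : T2} (hp : Metric.closedBall p r ⊆ D) (hb : p ∉ K) (hb' : Prod.swap p ∉ K) :
    S a ⁻¹' D = D ∧ IsConnected (N317.SM.pr ⁻¹' D) := by
  obtain ⟨hf, hf'⟩ := N317.SM.deep hDo hp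
  have hpD : p ∈ D := hp (Metric.mem_closedBall_self hr)
  have h1 : HasCurve ((S a)^[n] '' D) := good_curve hK hr hb hpD hf
  have h2 : HasCurve (Prod.swap ⁻¹' ((Si a)^[n] '' D)) := by
    rw [← N317.SM.front_swap'] at hf'
    have h3 := good_curve hK hr hb' (B := Prod.swap ⁻¹' D)
      (by rwa [mem_preimage, Prod.swap_swap]) hf'
    refine h3.mono ?_
    rintro _ ⟨q, hq, rfl⟩
    refine ⟨Prod.swap q, hq, ?_⟩
    rw [← swap_S_iter]
  -- the two images are equal
  have h3 : (S a)^[n + n] '' D = D := by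
    rcases hD (n + n) with h | h
    · exact h
    · exfalso
      obtain ⟨z, ⟨x, hx, hxz⟩, ⟨y, hy, hyz⟩⟩ := meet h1 h2
      refine Set.disjoint_left.1 h ⟨x, hx, ?_⟩ hy
      rw [iterate_add_apply, hxz, ← hyz, S_iter_Si]
  have hcomp : (Si a)^[n] ∘ (S a)^[n + n] = (S a)^[n] := by
    funext x
    rw [comp_apply, iterate_add_apply, N317.SM.S_iter_Si']
  have h4 : (Si a)^[n] '' D = (S a)^[n] '' D := by
    conv_lhs => rw [← h3, ← image_comp, hcomp]
  rw [h4] at h2
  -- invariance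
  have h5 : S a '' D = D := by
    rcases hD 1 with h | h
    · exact h
    · exfalso
      have h6 := (N317.SM.long_S ha h1).hasCurve
      obtain ⟨z, ⟨x, ⟨x', hx', hxx⟩, hxz⟩, ⟨y, hy, hyz⟩⟩ := meet h6 h2
      refine Set.disjoint_left.1 h ⟨x', hx', ?_⟩ hy
      rw [iterate_one]
      have h7 : (S a)^[n] (S a x') = (S a)^[n] y := by
        rw [← iterate_succ_apply, iterate_succ_apply', hxx, hxz, hyz]
      have h8 := congrArg ((Si a)^[n]) h7
      rwa [N317.SM.S_iter_Si', N317.SM.S_iter_Si'] at h8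
  have h6 : ∀ k, (S a)^[k] '' D = D := by
    intro k
    induction k with
    | zero => simp
    | succ k ih => rw [iterate_succ', image_comp, ih, h5]
  rw [h6 n] at h1 h2
  have h7 : Si a '' D = D := by
    conv_lhs => rw [← h5, ← image_comp]
    have : Si a ∘ S a = id := funext (Si_S a)
    rw [this, image_id]
  have hL1 : N317.SM.Long D := by
    have := N317.SM.long_S ha h1
    rwa [h5] at this
  have hL2 : N317.SM.Long (Prod.swap ⁻¹' D) := by
    have := N317.SM.long_Si ha h2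
    rwa [h7] at this
  exact ⟨N317.SM.pre_S h5, N317.SM.conn_of_long hDo hDc hL1 hL2⟩

/-- a lower bound for a quantity which satisfies an inequality at all scales -/
theorem len_core {a : ℝ} (ha : 1 ≤ |a|) {η : ℝ} (hη1 : η ≤ 1)
    (hη : 64 * C1 ^ 2 * (1 + log |a|) ≤ η * √|a|) {l : ℝ≥0∞}
    (hl0 : ∀ (n : ℕ) (h : ℝ), 1 ≤ n → 0 ≤ h → h ≤ 1 → ENNReal.ofReal η ≤
      ENNReal.ofReal (C1 * ((1 + log |a|) * (1 / √|a| + √n / |a|) + |a| ^ (-h / 2))) +
      ENNReal.ofReal (4 * (6 * |a| ^ (-(1 - h) * n))) * l) :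
    ENNReal.ofReal ((η ^ 2 * |a| / (64 * C1 ^ 2)) ^
      ((η * |a| / (64 * C1 ^ 2 * (1 + log |a|))) ^ 2)) ≤ l := by
  have hC1 := C1_ge
  have hC0 : 0 < C1 := by linarith
  have ha0 : 0 < |a| := by linarith
  have hl := log_nonneg ha
  set A' : ℝ := |a| with hA'
  set C2 := C1 with hC2
  have hsA : 0 < √A' := Real.sqrt_pos.2 ha0
  have hs2 : √A' * √A' = A' := Real.mul_self_sqrt ha0.le
  have hη0 : 0 < η := by
    have h3 : 0 < η * √A' := lt_of_lt_of_le (by positivity) hη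
    exact (mul_pos_iff_of_pos_right hsA).1 h3
  by_cases htop : l = (⊤ : ℝ≥0∞)
  · rw [htop]
    exact le_top
  set ℓ : ℝ := l.toReal with hℓ
  have hℓ0 : 0 ≤ ℓ := ENNReal.toReal_nonneg
  have hℓe : l = ENNReal.ofReal ℓ :=
    (ENNReal.ofReal_toReal htop).symm
  -- first consequences
  have hsq : 64 * C2 ^ 2 ≤ η * √A' := by
    have : 0 ≤ 64 * C2 ^ 2 * log A' := by positivity
    linarith
  have hsq' : 64 * C2 ^ 2 ≤ √A' := by
    have : η * √A' ≤ 1 * √A' := mul_le_mul_of_nonneg_right hη1 hsA.le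
    linarith
  have hC3 : 64 * 120 ^ 2 ≤ 64 * C2 ^ 2 := by
    have : (120:ℝ) ^ 2 ≤ C2 ^ 2 := pow_le_pow_left₀ (by norm_num) hC1 2
    linarith
  have hA1 : 1 < A' := by nlinarith
  have hlA : 0 < log A' := log_pos hA1
  -- the parameter `h`
  set u : ℝ := 8 * C2 / η with hu
  have hu0 : 0 < u := by positivity
  have hu1 : 1 ≤ u := by
    rw [hu, le_div_iff₀ hη0]
    linarith
  have huA : u ^ 2 ≤ A' := by
    have h3 : u ≤ √A' := by
      rw [hu, div_le_iff₀ hη0]
      nlinarith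
    calc u ^ 2 ≤ √A' ^ 2 := pow_le_pow_left₀ hu0.le h3 2
      _ = A' := by rw [pow_two]; exact hs2
  have hlu : 0 ≤ log u := log_nonneg hu1
  set h : ℝ := 2 * log u / log A' with hh
  have hh0 : 0 ≤ h := by positivity
  have hh1 : h ≤ 1 := by
    rw [hh, div_le_one hlA]
    have h3 := log_le_log (by positivity) huA
    rw [log_pow] at h3
    push_cast at h3
    exact h3
  have hAh : A' ^ (-h / 2) = 1 / u := by
    rw [Real.rpow_def_of_pos ha0]
    have e : log A' * (-h / 2) = -log u := by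
      rw [hh]
      field_simp
    rw [e, Real.exp_neg, Real.exp_log hu0, one_div]
  set b : ℝ := η ^ 2 * A' / (64 * C2 ^ 2) with hb
  have hb0 : 0 < b := by positivity
  have hAb : A' ^ (1 - h) = b := by
    rw [Real.rpow_sub ha0, Real.rpow_one]
    have e : A' ^ h = u ^ 2 := by
      have e1 : A' ^ h = (A' ^ (-h / 2))⁻¹ ^ 2 := by
        rw [← Real.rpow_neg ha0.le, ← Real.rpow_natCast, ← Real.rpow_mul ha0.le]
        congr 1
        push_cast
        ring
      rw [e1, hAh, one_div, inv_inv]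
    rw [e, hu, hb]
    field_simp
    ring
  -- the time
  set x : ℝ := η * A' / (8 * C2 * (1 + log A')) with hx
  have hx0 : 0 < x := by positivity
  have hxA : 8 * C2 * √A' ≤ x := by
    rw [hx, le_div_iff₀ (by positivity)]
    calc 8 * C2 * √A' * (8 * C2 * (1 + log A')) = (64 * C2 ^ 2 * (1 + log A')) * √A' := by ring
      _ ≤ η * √A' * √A' := mul_le_mul_of_nonneg_right hη hsA.le
      _ = _ := by rw [mul_assoc, hs2]
  have hx1 : 1 ≤ x := by nlinarith
  have hx2 : 2 ≤ x ^ 2 := by nlinarith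
  set n : ℕ := ⌊x ^ 2⌋₊ with hn
  have hn1 : 1 ≤ n := Nat.le_floor (by push_cast; linarith)
  have hnx : (n:ℝ) ≤ x ^ 2 := Nat.floor_le (by positivity)
  have hnx' : x ^ 2 < n + 1 := Nat.lt_floor_add_one _
  have hsn : √n ≤ x := by
    rw [Real.sqrt_le_left hx0.le]
    exact hnx
  have h4 := hl0 n h hn1 hh0 hh1
  have hbn : A' ^ (-(1 - h) * n) = 1 / b ^ n := by
    rw [neg_mul, Real.rpow_neg ha0.le, Real.rpow_mul ha0.le, hAb, Real.rpow_natCast, one_div]
  rw [hℓe, hbn, hAh, ← ENNReal.ofReal_mul (by positivity), ← ENNReal.ofReal_add (by positivity)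
    (by positivity), ENNReal.ofReal_le_ofReal_iff (by positivity)] at h4
  -- the error terms
  have e1 : C2 * ((1 + log A') * (1 / √A')) ≤ η / 8 := by
    have h5 : (1 + log A') / √A' ≤ η / (64 * C2 ^ 2) := by
      rw [div_le_div_iff₀ hsA (by positivity)]
      linarith
    calc C2 * ((1 + log A') * (1 / √A')) = C2 * ((1 + log A') / √A') := by ring
      _ ≤ C2 * (η / (64 * C2 ^ 2)) := mul_le_mul_of_nonneg_left h5 hC0.le
      _ = η / (64 * C2) := by field_simp
      _ ≤ η / 8 := div_le_div_of_nonneg_left hη0.le (by norm_num) (by linarith)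
  have e2 : C2 * ((1 + log A') * (√n / A')) ≤ η / 8 := by
    have h5 : √n / A' ≤ x / A' := div_le_div_of_nonneg_right hsn ha0.le
    calc C2 * ((1 + log A') * (√n / A')) ≤ C2 * ((1 + log A') * (x / A')) := by gcongr
      _ = η / 8 := by
          rw [hx]
          field_simp
  have e3 : C2 * (1 / u) = η / 8 := by
    rw [hu]
    field_simp
  have h5 : 5 * η / 8 ≤ 24 * (1 / b ^ n) * ℓ := by
    have e4 : C2 * ((1 + log A') * (1 / √A' + √n / A') + 1 / u) =
        C2 * ((1 + log A') * (1 / √A')) + C2 * ((1 + log A') * (√n / A')) + C2 * (1 / u) := by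
      ring
    rw [e4] at h4
    have e5 : 4 * (6 * (1 / b ^ n)) * ℓ = 24 * (1 / b ^ n) * ℓ := by ring
    rw [e5] at h4
    linarith
  have hbn0 : 0 < b ^ n := by positivity
  have h6 : 5 * η / 192 * b ^ n ≤ ℓ := by
    have e6 : 24 * (1 / b ^ n) * ℓ = 24 * ℓ / b ^ n := by ring
    rw [e6, le_div_iff₀ hbn0] at h5
    linarith
  -- comparison of the powers
  have hb3 : 64 * C2 ^ 2 ≤ b := by
    rw [hb, le_div_iff₀ (by positivity)]
    calc 64 * C2 ^ 2 * (64 * C2 ^ 2) ≤ (η * √A') * (η * √A') :=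
          mul_le_mul hsq hsq (by positivity) (by positivity)
      _ = η ^ 2 * (√A' * √A') := by ring
      _ = _ := by rw [hs2]
  have hb1 : 1 ≤ b := by linarith
  have hlb : 1 ≤ log b := by
    rw [Real.le_log_iff_exp_le hb0]
    have := Real.exp_one_lt_d9
    linarith
  have h7 : b ^ (x ^ 2 / 2) ≤ b ^ n := by
    rw [← Real.rpow_natCast b n]
    apply Real.rpow_le_rpow_of_exponent_le hb1
    linarith
  have h8 : 192 / (5 * η) ≤ b ^ (x ^ 2 / 4) := by
    rw [Real.rpow_def_of_pos hb0]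
    have h9 : x ^ 2 / 4 ≤ log b * (x ^ 2 / 4) := by
      have : 0 ≤ x ^ 2 / 4 := by positivity
      nlinarith
    have h10 := add_one_le_exp (log b * (x ^ 2 / 4))
    have h11 : 16 * C2 ^ 2 * A' ≤ x ^ 2 / 4 := by
      have h12 : (8 * C2 * √A') ^ 2 ≤ x ^ 2 := pow_le_pow_left₀ (by positivity) hxA 2
      have e7 : (8 * C2 * √A') ^ 2 = 64 * C2 ^ 2 * A' := by
        rw [mul_pow, mul_pow, pow_two (√A'), hs2]
        ring
      rw [e7] at h12
      linarith
    have h12 : 1 ≤ η * A' := by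
      have h13 : 1 ≤ √A' := by linarith
      calc (1:ℝ) ≤ η * √A' := by linarith
        _ ≤ η * (√A' * √A') := by
            apply mul_le_mul_of_nonneg_left _ hη0.le
            nlinarith
        _ = _ := by rw [hs2]
    rw [div_le_iff₀ (by positivity)]
    have h14 : 16 * C2 ^ 2 * A' ≤ exp (log b * (x ^ 2 / 4)) := by linarith
    have h15 : 16 * C2 ^ 2 * A' * (5 * η) ≤ exp (log b * (x ^ 2 / 4)) * (5 * η) :=
      mul_le_mul_of_nonneg_right h14 (by positivity)
    have h16 : 16 * C2 ^ 2 * A' * (5 * η) = 80 * C2 ^ 2 * (η * A') := by ring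
    have h17 : 80 * 120 ^ 2 * 1 ≤ 80 * C2 ^ 2 * (η * A') := by
      apply mul_le_mul (by linarith) h12 (by norm_num) (by positivity)
    rw [h16] at h15
    linarith
  have h9 : (η * A' / (64 * C2 ^ 2 * (1 + log A'))) ^ 2 ≤ x ^ 2 / 4 := by
    have e8 : η * A' / (64 * C2 ^ 2 * (1 + log A')) = x / (8 * C2) := by
      rw [hx, div_div]
      congr 1
      ring
    rw [e8, div_pow]
    apply div_le_div_of_nonneg_left (by positivity) (by norm_num)
    nlinarith
  have h10 : b ^ ((η * A' / (64 * C2 ^ 2 * (1 + log A'))) ^ 2) ≤ b ^ (x ^ 2 / 4) :=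
    Real.rpow_le_rpow_of_exponent_le hb1 h9
  rw [hℓe]
  apply ENNReal.ofReal_le_ofReal
  refine le_trans ?_ h6
  have h11 : b ^ (x ^ 2 / 2) = b ^ (x ^ 2 / 4) * b ^ (x ^ 2 / 4) := by
    rw [← Real.rpow_add hb0]
    congr 1
    ring
  calc b ^ ((η * A' / (64 * C2 ^ 2 * (1 + log A'))) ^ 2) ≤ b ^ (x ^ 2 / 4) := h10
    _ = 5 * η / 192 * (192 / (5 * η) * b ^ (x ^ 2 / 4)) := by field_simp
    _ ≤ 5 * η / 192 * (b ^ (x ^ 2 / 4) * b ^ (x ^ 2 / 4)) := by gcongr
    _ = 5 * η / 192 * b ^ (x ^ 2 / 2) := by rw [h11]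
    _ ≤ _ := by gcongr

/-- the length of the boundary of an invariant set -/
theorem length {a : ℝ} (ha : 1 ≤ |a|) {A : Set T2} (hA : S a ⁻¹' A = A) {η : ℝ}
    (h1 : ENNReal.ofReal η ≤ volume A) (h2 : ENNReal.ofReal η ≤ volume Aᶜ)
    (hη : 64 * C1 ^ 2 * (1 + log |a|) ≤ η * √|a|) :
    ENNReal.ofReal ((η ^ 2 * |a| / (64 * C1 ^ 2)) ^
      ((η * |a| / (64 * C1 ^ 2 * (1 + log |a|))) ^ 2)) ≤
      Measure.hausdorffMeasure 1 (frontier A) := by
  have ha0 : 0 < |a| := by linarith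
  have hη1 : η ≤ 1 := by
    have h3 : ENNReal.ofReal η ≤ 1 := h1.trans prob_le_one
    rwa [ENNReal.ofReal_le_one] at h3
  refine len_core ha hη1 hη fun n h hn hh0 hh1 => ?_
  obtain ⟨K, _, hK, hKv⟩ := exists_bad (a := a) ha hn hh0 hh1
  have hr : 0 < 6 * |a| ^ (-(1 - h) * n) := by positivity
  exact (alt_len hK hr hA h1 h2).trans (add_le_add_left hKv _)

end Pool.Agent.U785.WB
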