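import Mathlib
import Pool.Agent.U785.WB.Fin

set_option autoImplicit false

/-!
# Measurable invariant sets: full segments cross full segments
-/

namespace Pool.Agent.U785.WB

open Real MeasureTheory Set Function Topology
open Pool.Agent.TH705.SM (T2 S Si S_cont Si_S S_mp iter_mp)
open Pool.Agent.Y332.SM
open scoped ENNReal

/-- the points `p` such that almost all points of the horizontal segment around `p` are in `A` -/
def Full (r : ℝ) (A : Set T2) : Set T2 :=
  {p | volume {x : UnitAddCircle | dist x p.1 ≤ r ∧ (x, p.2) ∉ A} = 0}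

theorem full_meas (r : ℝ) {A : Set T2} (hA : MeasurableSet A) : MeasurableSet (Full r A) := by
  have h1 : MeasurableSet {z : T2 × UnitAddCircle | dist z.2 z.1.1 ≤ r ∧ (z.2, z.1.2) ∉ A} := by
    have h2 : MeasurableSet {z : T2 × UnitAddCircle | dist z.2 z.1.1 ≤ r} :=
      (isClosed_le (by fun_prop) continuous_const).measurableSet
    have h3 : Measurable (fun z : T2 × UnitAddCircle => ((z.2, z.1.2) : T2)) := by fun_prop
    exact h2.inter (h3 hA.compl)
  have h4 := measurable_measure_prodMk_left (ν := (volume : Measure UnitAddCircle)) h1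
  exact h4 (measurableSet_singleton 0)

theorem pre_null {B : Set UnitAddCircle} (hB : volume B = 0) :
    volume ((fun x : ℝ => (x : UnitAddCircle)) ⁻¹' B) = 0 := by
  have h1 : ∀ k : ℤ, volume ((fun x : ℝ => (x : UnitAddCircle)) ⁻¹' B ∩ Ioc (k:ℝ) (k + 1)) = 0 := by
    intro k
    have h2 := (UnitAddCircle.measurePreserving_mk (k:ℝ)).quasiMeasurePreserving.preimage_null hB
    rwa [Measure.restrict_apply_eq_zero' measurableSet_Ioc] at h2
  have h3 : (fun x : ℝ => (x : UnitAddCircle)) ⁻¹' B =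
      ⋃ k : ℤ, (fun x : ℝ => (x : UnitAddCircle)) ⁻¹' B ∩ Ioc (k:ℝ) (k + 1) := by
    rw [← inter_iUnion, iUnion_Ioc_intCast, inter_univ]
  rw [h3]
  exact measure_iUnion_null h1

theorem null_of_pre {B : Set UnitAddCircle} (hBm : MeasurableSet B)
    (h : volume ((fun x : ℝ => (x : UnitAddCircle)) ⁻¹' B) = 0) : volume B = 0 := by
  have h1 := (UnitAddCircle.measurePreserving_mk 0).measure_preimage hBm.nullMeasurableSet
  rw [← h1]
  exact le_antisymm ((Measure.restrict_apply_le _ _).trans h.le) zero_le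

theorem hnbd_closed {r : ℝ} {C : Set T2} (hC : IsCompact C) : IsClosed (hnbd r C) := by
  have h1 : hnbd r C = (fun z : T2 × ℝ => ((z.1.1 - (z.2 : UnitAddCircle), z.1.2) : T2)) ''
      (C ×ˢ Icc (-r) r) := by
    ext p
    constructor
    · rintro ⟨b, hb, hp⟩
      rw [abs_le] at hb
      refine ⟨((p.1 + (b : UnitAddCircle), p.2), b), ⟨hp, hb⟩, ?_⟩
      simp
    · rintro ⟨⟨c, b⟩, ⟨hc, hb⟩, rfl⟩
      refine ⟨b, abs_le.2 hb, ?_⟩
      simp only [sub_add_cancel]
      exact hc
  rw [h1]
  have h2 : Continuous (fun z : T2 × ℝ => ((z.1.1 - (z.2 : UnitAddCircle), z.1.2) : T2)) := by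
    have : Continuous (fun z : T2 × ℝ => (z.2 : UnitAddCircle)) :=
      (AddCircle.continuous_mk' 1).comp continuous_snd
    fun_prop
  exact ((hC.prod isCompact_Icc).image h2).isClosed

theorem slice_null {N : Set T2} (hN : MeasurableSet N) (h : volume N = 0) :
    ∀ᵐ y : UnitAddCircle, volume {x : UnitAddCircle | (x, y) ∈ N} = 0 := by
  have h1 : (volume : Measure T2) N = ∫⁻ y, volume ((fun x => (x, y)) ⁻¹' N) := by
    rw [Measure.volume_eq_prod, Measure.prod_apply_symm hN]
  rw [h, eq_comm, lintegral_eq_zero_iff] at h1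
  · exact h1
  · exact measurable_measure_prodMk_right hN

/-- **full horizontal segments of an invariant set and full vertical segments of its complement** -/
theorem cross {a r r' : ℝ} {n m : ℕ} {K K' : Set T2} (hK : BadSet a n r K)
    (hK' : BadSet a m r' K') (hKm : MeasurableSet K) (hKm' : MeasurableSet K') (hr' : 0 < r')
    {A : Set T2} (hAm : MeasurableSet A) (hA : S a ⁻¹' A = A) :
    volume (Full r A \ K) = 0 ∨ volume (Full (2 * r') (Prod.swap ⁻¹' Aᶜ) \ K') = 0 := by
  by_contra hcon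
  rw [not_or] at hcon
  obtain ⟨hc1, hc2⟩ := hcon
  set A' : Set T2 := Prod.swap ⁻¹' Aᶜ with hA'
  have hA'm : MeasurableSet A' := measurable_swap hAm.compl
  -- a compact subset
  obtain ⟨C, hCsub, hCc, hC0⟩ := MeasurableSet.exists_lt_isCompact_of_ne_top
    ((full_meas (2 * r') hA'm).diff hKm') (measure_ne_top volume _) (pos_iff_ne_zero.2 hc2)
  set V : Set T2 := hnbd r' C with hV
  have hVc : IsClosed V := hnbd_closed hCc
  -- the part of the neighbourhood in `A`
  set G : Set T2 := V \ A' with hG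
  have hGm : MeasurableSet G := hVc.measurableSet.diff hA'm
  have hG0 : volume G = 0 := by
    rw [Measure.volume_eq_prod, Measure.prod_apply_symm hGm]
    rw [lintegral_eq_zero_iff (measurable_measure_prodMk_right hGm)]
    refine Filter.Eventually.of_forall fun y => ?_
    apply measure_null_of_locally_null
    rintro x ⟨⟨b, hb, hxb⟩, hxA⟩
    obtain ⟨hF, _⟩ := hCsub hxb
    have hF' : volume {x' : UnitAddCircle | dist x' (x + (b : UnitAddCircle)) ≤ 2 * r' ∧
      (x', y) ∉ A'} = 0 := hF
    refine ⟨(fun x => ((x, y) : T2)) ⁻¹' G ∩ Metric.ball x r', ?_, ?_⟩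
    · exact Filter.inter_mem self_mem_nhdsWithin
        (mem_nhdsWithin_of_mem_nhds (Metric.ball_mem_nhds x hr'))
    · refine measure_mono_null ?_ hF'
      rintro x' ⟨hx'1, hx'2⟩
      refine ⟨?_, hx'1.2⟩
      have h1 : dist x (x + (b : UnitAddCircle)) ≤ r' := by
        rw [dist_eq_norm, sub_add_cancel_left, norm_neg]
        exact (norm_coe_le b).trans hb
      have h2 : dist x' x < r' := hx'2
      have h3 := dist_triangle x' x (x + (b : UnitAddCircle))
      linarith
  -- the points which come to `swap G`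
  set N : Set T2 := (S a)^[n + m] ⁻¹' (Prod.swap ⁻¹' G) with hN
  have hNm : MeasurableSet N := (iter_mp a (n + m)).measurable (measurable_swap hGm)
  have hN0 : volume N = 0 := by
    rw [(iter_mp a (n + m)).measure_preimage (measurable_swap hGm).nullMeasurableSet, vol_swap]
    exact hG0
  have hsl := slice_null hNm hN0
  -- a point
  have hU : ∃ y : UnitAddCircle, volume {x : UnitAddCircle | (x, y) ∈ N} = 0 ∧
      ∃ x, (x, y) ∈ Full r A \ K := by
    by_contra hcon
    push Not at hcon
    apply hc1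
    have hUm : MeasurableSet (Full r A \ K) := (full_meas r hAm).diff hKm
    rw [Measure.volume_eq_prod, Measure.prod_apply_symm hUm]
    rw [lintegral_eq_zero_iff (measurable_measure_prodMk_right hUm)]
    filter_upwards [hsl] with y hy
    have : (fun x => ((x, y) : T2)) ⁻¹' (Full r A \ K) = ∅ := by
      rw [eq_empty_iff_forall_notMem]
      exact fun x hx => hcon y hy x hx
    rw [this, measure_empty]
    rfl
  obtain ⟨y, hy, x₀, hx₀, hx₀K⟩ := hU
  obtain ⟨t, s, hts, hcurve⟩ := hK _ hx₀K
  have e1 : (t : UnitAddCircle) = x₀ := congrArg Prod.fst hts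
  have e2 : (s : UnitAddCircle) = y := congrArg Prod.snd hts
  rw [← e1, ← e2] at hx₀
  rw [← e2] at hy
  have hx₀' : volume {x : UnitAddCircle | dist x (t : UnitAddCircle) ≤ r ∧
    (x, (s : UnitAddCircle)) ∉ A} = 0 := hx₀
  set Z : Set ℝ := {u : ℝ | |u - t| ≤ r ∧
    (S a)^[n + m] ((u : UnitAddCircle), (s : UnitAddCircle)) ∈ Prod.swap ⁻¹' V} with hZ
  have hZ0 : volume Z = 0 := by
    have h1 := pre_null (measure_union_null hx₀' hy)
    refine measure_mono_null ?_ h1
    rintro u ⟨hu, huV⟩
    by_cases huA : ((u : UnitAddCircle), (s : UnitAddCircle)) ∈ A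
    · right
      have h2 := iter_mem hA huA (n + m)
      refine ⟨huV, fun h3 => h3 ?_⟩
      exact h2
    · left
      refine ⟨?_, huA⟩
      rw [dist_eq_norm, ← AddCircle.coe_sub]
      exact (norm_coe_le _).trans hu
  -- the image
  set ψ : ℝ → ℝ := TH705.SM.X a s (n + m + 1) with hψ
  have hψd : Differentiable ℝ ψ := fun x => (TH705.SM.X_hasDeriv a s (n + m + 1) x).differentiableAt
  have hψZ : volume (ψ '' Z) = 0 :=
    addHaar_image_eq_zero_of_differentiableOn_of_addHaar_eq_zero volume hψd.differentiableOn hZ0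
  have hcov : ∀ q ∈ C, ∃ u ∈ Z, (ψ u : UnitAddCircle) = q.2 := by
    intro q hq
    obtain ⟨t', s', hts', c2⟩ := hK' q (hCsub hq).2
    have c3 : HasCurve (Prod.swap ⁻¹' ((Si a)^[m] '' (Prod.swap '' seg r' t' s'))) := by
      refine c2.mono ?_
      rintro _ ⟨x, hx, rfl⟩
      refine ⟨Prod.swap x, ⟨x, hx, rfl⟩, ?_⟩
      rw [swap_S_iter]
    obtain ⟨z, ⟨_, ⟨u, hu, rfl⟩, hxz⟩, ⟨_, ⟨_, ⟨v, hv, rfl⟩, rfl⟩, hyz⟩⟩ := meet hcurve c3
    have h5 : (S a)^[n + m] ((u : UnitAddCircle), (s : UnitAddCircle)) =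
        ((s' : UnitAddCircle), (v : UnitAddCircle)) := by
      rw [add_comm, iterate_add_apply, hxz, ← hyz, S_iter_Si]
      rfl
    refine ⟨u, ⟨hu, ?_⟩, ?_⟩
    · rw [mem_preimage, h5]
      refine ⟨t' - v, ?_, ?_⟩
      · rw [abs_sub_comm]
        exact hv
      · simp only [Prod.swap_prod_mk]
        rw [← AddCircle.coe_add, add_sub_cancel, hts']
        exact hq
    · have h6 := TH705.SM.iter_coe a s u (n + m)
      rw [h5] at h6
      have h7 := congrArg Prod.fst h6
      rw [← hts']
      exact h7.symm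
  -- the projection of `C`
  have hE : volume (Prod.snd '' C) = 0 := by
    apply null_of_pre ((hCc.image continuous_snd).isClosed.measurableSet)
    have h1 : (fun x : ℝ => (x : UnitAddCircle)) ⁻¹' (Prod.snd '' C) ⊆
        ⋃ k : ℤ, (fun x : ℝ => x - k) ⁻¹' (ψ '' Z) := by
      rintro x ⟨q, hq, hqx⟩
      obtain ⟨u, hu, huq⟩ := hcov q hq
      have h2 : (x : UnitAddCircle) = (ψ u : UnitAddCircle) := by
        rw [huq]
        exact hqx.symm
      have h3 : ((x - ψ u : ℝ) : UnitAddCircle) = 0 := by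
        rw [AddCircle.coe_sub, h2, sub_self]
      rw [AddCircle.coe_eq_zero_iff] at h3
      obtain ⟨k, hk⟩ := h3
      rw [zsmul_eq_mul, mul_one] at hk
      rw [mem_iUnion]
      refine ⟨k, u, hu, ?_⟩
      linarith
    refine measure_mono_null h1 (measure_iUnion_null fun k => ?_)
    rw [(measurePreserving_sub_right volume (k:ℝ)).measure_preimage
      (NullMeasurableSet.of_null hψZ)]
    exact hψZ
  have hC0' : volume C = 0 := by
    have h1 : C ⊆ univ ×ˢ (Prod.snd '' C) := fun q hq => ⟨mem_univ _, ⟨q, hq, rfl⟩⟩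
    refine measure_mono_null h1 ?_
    rw [Measure.volume_eq_prod, Measure.prod_prod, hE, mul_zero]
  rw [hC0'] at hC0
  exact lt_irrefl _ hC0

end Pool.Agent.U785.WB
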