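import Mathlib
import Pool.Agent.U785.WB.Per

set_option autoImplicit false

/-!
# Sets with small variation along the horizontal lines
-/

namespace Pool.Agent.U785.WB

open Real MeasureTheory Set Function Topology
open Pool.Agent.TH705.SM (T2 S Si S_cont Si_S S_mp iter_mp)
open Pool.Agent.Y332.SM
open scoped ENNReal

/-- translation of the first coordinate -/
noncomputable def tl (b : ℝ) (p : T2) : T2 := (p.1 + (b : UnitAddCircle), p.2)

theorem tl_mp (b : ℝ) : MeasurePreserving (tl b) (volume : Measure T2) volume :=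
  (measurePreserving_add_right (volume : Measure UnitAddCircle) (b : UnitAddCircle)).prod
    (MeasurePreserving.id (volume : Measure UnitAddCircle))

theorem tl_add (b c : ℝ) (p : T2) : tl b (tl c p) = tl (c + b) p := by
  unfold tl
  simp only
  rw [AddCircle.coe_add, add_assoc]

theorem tl_zero (p : T2) : tl 0 p = p := by
  unfold tl
  simp

theorem tl_cont : Continuous (fun z : T2 × ℝ => tl z.2 z.1) := by
  have : Continuous (fun z : T2 × ℝ => (z.2 : UnitAddCircle)) :=
    (AddCircle.continuous_mk' 1).comp continuous_snd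
  unfold tl
  fun_prop

/-- the measure of the part of the segment outside `A` -/
noncomputable def gg (r : ℝ) (A : Set T2) (p : T2) : ℝ≥0∞ := volume {b : ℝ | |b| ≤ r ∧ tl b p ∉ A}

theorem gg_meas (r : ℝ) {A : Set T2} (hA : MeasurableSet A) : Measurable (gg r A) := by
  have h1 : MeasurableSet {z : T2 × ℝ | |z.2| ≤ r ∧ tl z.2 z.1 ∉ A} := by
    have h2 : MeasurableSet {z : T2 × ℝ | |z.2| ≤ r} :=
      (isClosed_le (by fun_prop) continuous_const).measurableSet
    exact h2.inter (tl_cont.measurable hA.compl)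
  exact measurable_measure_prodMk_left (ν := (volume : Measure ℝ)) h1

theorem not_full_gg {r : ℝ} {A : Set T2} (hA : MeasurableSet A) {p : T2} (hp : p ∉ Full r A) :
    0 < gg r A p := by
  rw [pos_iff_ne_zero]
  intro h0
  apply hp
  have hBm : MeasurableSet {x : UnitAddCircle | dist x p.1 ≤ r ∧ (x, p.2) ∉ A} := by
    have h2 : MeasurableSet {x : UnitAddCircle | dist x p.1 ≤ r} :=
      (isClosed_le (by fun_prop) continuous_const).measurableSet
    have h3 : Measurable (fun x : UnitAddCircle => ((x, p.2) : T2)) := by fun_prop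
    exact h2.inter (h3 hA.compl)
  have h1 : MeasurePreserving (fun b : ℝ => p.1 + (b : UnitAddCircle))
      (volume.restrict (Ioc (-(1 / 2) : ℝ) (1 / 2))) volume := by
    have h2 := UnitAddCircle.measurePreserving_mk (-(1 / 2))
    have e : (-(1 / 2) : ℝ) + 1 = 1 / 2 := by norm_num
    rw [e] at h2
    exact (measurePreserving_add_left (volume : Measure UnitAddCircle) p.1).comp h2
  show volume {x : UnitAddCircle | dist x p.1 ≤ r ∧ (x, p.2) ∉ A} = 0
  rw [← h1.measure_preimage hBm.nullMeasurableSet, Measure.restrict_apply (h1.measurable hBm)]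
  refine measure_mono_null ?_ h0
  rintro b ⟨⟨hb1, hb2⟩, hb3⟩
  refine ⟨?_, hb2⟩
  have h3 : ‖(b : UnitAddCircle)‖ = |b| := by
    apply (AddCircle.norm_coe_eq_abs_iff 1 one_ne_zero).2
    rw [abs_one, abs_le]
    exact ⟨hb3.1.le, hb3.2⟩
  have h4 : dist (p.1 + (b : UnitAddCircle)) p.1 = ‖(b : UnitAddCircle)‖ := by
    rw [dist_eq_norm, add_sub_cancel_left]
  rw [h4, h3] at hb1
  exact hb1

/-- the points leaving `A` within `ε` -/
noncomputable def hh' (ε : ℝ) (A : Set T2) (p : T2) : ℝ≥0∞ :=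
  volume {b : ℝ | b ∈ Icc 0 ε ∧ (p ∈ A ∧ tl b p ∉ A)}

theorem hh'_measS (ε : ℝ) {A : Set T2} (hA : MeasurableSet A) :
    MeasurableSet {z : T2 × ℝ | z.2 ∈ Icc 0 ε ∧ (z.1 ∈ A ∧ tl z.2 z.1 ∉ A)} := by
  have h2 : MeasurableSet {z : T2 × ℝ | z.2 ∈ Icc 0 ε} := measurable_snd measurableSet_Icc
  exact h2.inter ((measurable_fst hA).inter (tl_cont.measurable hA.compl))

theorem hh'_meas (ε : ℝ) {A : Set T2} (hA : MeasurableSet A) : Measurable (hh' ε A) :=
  measurable_measure_prodMk_left (ν := (volume : Measure ℝ)) (hh'_measS ε hA)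

theorem hh'_int {ε L : ℝ} (hL : 0 ≤ L) {A : Set T2} (hA : MeasurableSet A)
    (h : ∀ b : ℝ, volume {p | p ∈ A ∧ tl b p ∉ A} ≤ ENNReal.ofReal (L * |b|)) :
    ∫⁻ p, hh' ε A p ≤ ENNReal.ofReal (L * ε) * ENNReal.ofReal ε := by
  have h1 : ∫⁻ p, hh' ε A p = ((volume : Measure T2).prod (volume : Measure ℝ))
      {z : T2 × ℝ | z.2 ∈ Icc 0 ε ∧ (z.1 ∈ A ∧ tl z.2 z.1 ∉ A)} := by
    rw [Measure.prod_apply (hh'_measS ε hA)]
    rfl
  rw [h1, Measure.prod_apply_symm (hh'_measS ε hA)]
  calc ∫⁻ b, volume ((fun p => (p, b)) ⁻¹'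
        {z : T2 × ℝ | z.2 ∈ Icc 0 ε ∧ (z.1 ∈ A ∧ tl z.2 z.1 ∉ A)}) ≤
        ∫⁻ b, (Icc 0 ε).indicator (fun _ => ENNReal.ofReal (L * ε)) b := by
        apply lintegral_mono
        intro b
        by_cases hb : b ∈ Icc 0 ε
        · simp only [indicator_of_mem hb]
          refine le_trans (measure_mono ?_) ((h b).trans (ENNReal.ofReal_le_ofReal ?_))
          · exact fun p hp => hp.2
          · rw [abs_of_nonneg hb.1]
            exact mul_le_mul_of_nonneg_left hb.2 hL
        · simp only [indicator_of_notMem hb]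
          rw [nonpos_iff_eq_zero]
          have : (fun p => ((p, b) : T2 × ℝ)) ⁻¹'
              {z : T2 × ℝ | z.2 ∈ Icc 0 ε ∧ (z.1 ∈ A ∧ tl z.2 z.1 ∉ A)} = ∅ := by
            rw [eq_empty_iff_forall_notMem]
            exact fun p hp => hb hp.1
          rw [this, measure_empty]
    _ = _ := by
        rw [lintegral_indicator measurableSet_Icc, setLIntegral_const, Real.volume_Icc, sub_zero]

theorem first_pass {P : ℕ → Prop} (h0 : P 0) : ∀ m, ¬ P m → ∃ i, i < m ∧ P i ∧ ¬ P (i + 1) := by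
  intro m
  induction m with
  | zero => exact fun h => absurd h0 h
  | succ m ih =>
    intro h
    by_cases hm : P m
    · exact ⟨m, by omega, hm, h⟩
    · obtain ⟨i, h1, h2⟩ := ih hm
      exact ⟨i, by omega, h2⟩

/-- the points of `A` with a point of the grid outside `A` -/
def Wk (ε : ℝ) (k : ℕ) (A : Set T2) : Set T2 :=
  {p | p ∈ A ∧ ∃ j : ℕ, j < 2 * k ∧ tl (((j : ℝ) - k) * ε) p ∉ A}

theorem Wk_vol {ε L : ℝ} (hε : 0 < ε) {k : ℕ} {A : Set T2} (hA : MeasurableSet A)
    (h : ∀ b : ℝ, volume {p | p ∈ A ∧ tl b p ∉ A} ≤ ENNReal.ofReal (L * |b|)) :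
    volume (Wk ε k A) ≤ 2 * k * ENNReal.ofReal (L * ε) := by
  set Dl : ℝ → Set T2 := fun b => {p | p ∈ A ∧ tl b p ∉ A} with hDl
  have hDm : ∀ b, MeasurableSet (Dl b) := fun b => hA.inter ((tl_mp b).measurable hA.compl)
  have hsub : Wk ε k A ⊆ (⋃ i ∈ Finset.range k, tl ((i:ℝ) * ε) ⁻¹' Dl ε) ∪
      ⋃ i ∈ Finset.range k, tl (-((i:ℝ) * ε)) ⁻¹' Dl (-ε) := by
    rintro p ⟨hpA, j, hj, hjA⟩
    rcases le_or_gt k j with hkj | hkj
    · left
      obtain ⟨m, rfl⟩ := Nat.exists_eq_add_of_le hkj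
      have e : ((k + m : ℕ) : ℝ) - k = m := by push_cast; ring
      rw [e] at hjA
      obtain ⟨i, hi, h1, h2⟩ := first_pass (P := fun i : ℕ => tl ((i:ℝ) * ε) p ∈ A)
        (by simp only [Nat.cast_zero, zero_mul, tl_zero]; exact hpA) m hjA
      simp only [mem_iUnion, Finset.mem_range]
      refine ⟨i, by omega, h1, ?_⟩
      rw [tl_add]
      have e2 : (i:ℝ) * ε + ε = ((i + 1 : ℕ) : ℝ) * ε := by push_cast; ring
      rw [e2]
      exact h2
    · right
      obtain ⟨m, hm⟩ := Nat.exists_eq_add_of_le hkj.le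
      have e : (j:ℝ) - k = -(m:ℝ) := by
        rw [hm]
        push_cast
        ring
      rw [e] at hjA
      obtain ⟨i, hi, h1, h2⟩ := first_pass (P := fun i : ℕ => tl (-((i:ℝ) * ε)) p ∈ A)
        (by simp only [Nat.cast_zero, zero_mul, neg_zero, tl_zero]; exact hpA) m
        (by rwa [neg_mul] at hjA)
      simp only [mem_iUnion, Finset.mem_range]
      refine ⟨i, by omega, h1, ?_⟩
      rw [tl_add]
      have e2 : -((i:ℝ) * ε) + -ε = -(((i + 1 : ℕ) : ℝ) * ε) := by push_cast; ring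
      rw [e2]
      exact h2
  refine (measure_mono hsub).trans ((measure_union_le _ _).trans ?_)
  have hb : ∀ c b : ℝ, |b| = ε → volume (tl c ⁻¹' Dl b) ≤ ENNReal.ofReal (L * ε) := by
    intro c b hb
    rw [(tl_mp c).measure_preimage (hDm b).nullMeasurableSet, ← hb]
    exact h b
  have h1 : volume (⋃ i ∈ Finset.range k, tl ((i:ℝ) * ε) ⁻¹' Dl ε) ≤
      k * ENNReal.ofReal (L * ε) := by
    refine (measure_biUnion_finset_le _ _).trans ?_
    refine (Finset.sum_le_sum fun i _ => hb _ _ (abs_of_pos hε)).trans (le_of_eq ?_)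
    rw [Finset.sum_const, Finset.card_range, nsmul_eq_mul]
  have h2 : volume (⋃ i ∈ Finset.range k, tl (-((i:ℝ) * ε)) ⁻¹' Dl (-ε)) ≤
      k * ENNReal.ofReal (L * ε) := by
    refine (measure_biUnion_finset_le _ _).trans ?_
    refine (Finset.sum_le_sum fun i _ => hb _ _ (by rw [abs_neg, abs_of_pos hε])).trans
      (le_of_eq ?_)
    rw [Finset.sum_const, Finset.card_range, nsmul_eq_mul]
  refine (add_le_add h1 h2).trans (le_of_eq ?_)
  ring

/-- the part of the segment outside `A`, for points whose grid is in `A` -/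
theorem gg_le {ε r : ℝ} (hε : 0 < ε) {k : ℕ} (hk : 1 ≤ k) (hr : r = k * ε) {A : Set T2}
    {p : T2} (hpA : p ∈ A) (hp : p ∉ Wk ε k A) :
    gg r A p ≤ ∑ j ∈ Finset.range (2 * k), hh' ε A (tl (((j : ℝ) - k) * ε) p) := by
  have hin : ∀ j : ℕ, j < 2 * k → tl (((j : ℝ) - k) * ε) p ∈ A := by
    intro j hj
    by_contra hcon
    exact hp ⟨hpA, j, hj, hcon⟩
  have hsub : {b : ℝ | |b| ≤ r ∧ tl b p ∉ A} ⊆ ⋃ j ∈ Finset.range (2 * k),
      (fun b : ℝ => b - ((j : ℝ) - k) * ε) ⁻¹' {b : ℝ | b ∈ Icc 0 ε ∧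
        (tl (((j : ℝ) - k) * ε) p ∈ A ∧ tl b (tl (((j : ℝ) - k) * ε) p) ∉ A)} := by
    rintro b ⟨hb, hbA⟩
    rw [abs_le] at hb
    set z : ℝ := (b + r) / ε with hz
    have hz0 : 0 ≤ z := div_nonneg (by linarith) hε.le
    have hz1 : z ≤ 2 * k := by
      rw [hz, div_le_iff₀ hε]
      nlinarith
    have hbz : b = z * ε - k * ε := by
      rw [hz, div_mul_cancel₀ _ hε.ne']
      linarith
    have hex : ∃ j : ℕ, j < 2 * k ∧ (j:ℝ) ≤ z ∧ z ≤ j + 1 := by
      rcases hz1.lt_or_eq with h | h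
      · refine ⟨⌊z⌋₊, ?_, Nat.floor_le hz0, (Nat.lt_floor_add_one z).le⟩
        rw [Nat.floor_lt hz0]
        push_cast
        exact h
      · refine ⟨2 * k - 1, by omega, ?_, ?_⟩
        · rw [h, Nat.cast_sub (by omega)]
          push_cast
          linarith
        · rw [h, Nat.cast_sub (by omega)]
          push_cast
          linarith
    obtain ⟨j, hj, h1, h2⟩ := hex
    simp only [mem_iUnion, Finset.mem_range]
    refine ⟨j, hj, ⟨?_, ?_⟩, hin j hj, ?_⟩
    · rw [hbz]
      have : 0 ≤ (z - j) * ε := mul_nonneg (by linarith) hε.le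
      linarith
    · rw [hbz]
      have : (z - j) * ε ≤ 1 * ε := mul_le_mul_of_nonneg_right (by linarith) hε.le
      linarith
    · rw [tl_add]
      rw [add_sub_cancel]
      exact hbA
  refine (measure_mono hsub).trans ((measure_biUnion_finset_le _ _).trans ?_)
  apply Finset.sum_le_sum
  intro j _
  exact (measurePreserving_sub_right (volume : Measure ℝ)
    (((j : ℝ) - k) * ε)).measure_preimage_le _

/-- the points of `A` with much of the segment outside `A` -/
theorem level {L : ℝ} (hL : 0 ≤ L) {A : Set T2} (hA : MeasurableSet A)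
    (h : ∀ b : ℝ, volume {p | p ∈ A ∧ tl b p ∉ A} ≤ ENNReal.ofReal (L * |b|)) {r : ℝ} (hr : 0 < r)
    {c : ℝ} (hc : 0 < c) :
    volume {p | p ∈ A ∧ ENNReal.ofReal c ≤ gg r A p} ≤ ENNReal.ofReal (2 * r * L) := by
  have key : ∀ k : ℕ, 1 ≤ k → volume {p | p ∈ A ∧ ENNReal.ofReal c ≤ gg r A p} ≤
      ENNReal.ofReal (2 * r * L + 2 * r * L * r / c * (1 / k)) := by
    intro k hk
    have hk0 : (0:ℝ) < k := by exact_mod_cast hk
    set ε : ℝ := r / k with hεd
    have hε : 0 < ε := by positivity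
    have hrk : r = k * ε := by
      rw [hεd]
      field_simp
    set H : T2 → ℝ≥0∞ := fun p => ∑ j ∈ Finset.range (2 * k), hh' ε A (tl (((j : ℝ) - k) * ε) p)
      with hH
    have hm : ∀ j : ℕ, Measurable (fun p => hh' ε A (tl (((j : ℝ) - k) * ε) p)) := fun j =>
      (hh'_meas ε hA).comp (tl_mp _).measurable
    have hHm : Measurable H := Finset.measurable_fun_sum _ fun j _ => hm j
    have hHi : ∫⁻ p, H p ≤ 2 * k * (ENNReal.ofReal (L * ε) * ENNReal.ofReal ε) := by
      rw [lintegral_finsetSum _ fun j _ => hm j]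
      have h1 : ∀ j ∈ Finset.range (2 * k), ∫⁻ p, hh' ε A (tl (((j : ℝ) - k) * ε) p) ≤
          ENNReal.ofReal (L * ε) * ENNReal.ofReal ε := by
        intro j _
        have h2 := (tl_mp (((j : ℝ) - k) * ε)).lintegral_comp (hh'_meas ε hA)
        rw [h2]
        exact hh'_int hL hA h
      refine (Finset.sum_le_sum h1).trans (le_of_eq ?_)
      rw [Finset.sum_const, Finset.card_range, nsmul_eq_mul]
      push_cast
      ring
    have hsub : {p | p ∈ A ∧ ENNReal.ofReal c ≤ gg r A p} ⊆ Wk ε k A ∪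
        {p | ENNReal.ofReal c ≤ H p} := by
      rintro p ⟨hpA, hp⟩
      by_cases hW : p ∈ Wk ε k A
      · exact Or.inl hW
      · exact Or.inr (hp.trans (gg_le hε hk hrk hpA hW))
    have hc0 : ENNReal.ofReal c ≠ 0 := (ENNReal.ofReal_pos.2 hc).ne'
    have hmk : volume {p | ENNReal.ofReal c ≤ H p} ≤
        2 * k * (ENNReal.ofReal (L * ε) * ENNReal.ofReal ε) / ENNReal.ofReal c := by
      have h2 := meas_ge_le_lintegral_div hHm.aemeasurable (μ := (volume : Measure T2)) hc0
        ENNReal.ofReal_ne_top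
      exact h2.trans (ENNReal.div_le_div_right hHi _)
    refine (measure_mono hsub).trans ((measure_union_le _ _).trans
      ((add_le_add (Wk_vol hε hA h) hmk).trans (le_of_eq ?_)))
    have e2 : (2 * (k:ℝ≥0∞)) = ENNReal.ofReal (2 * k) := by
      rw [ENNReal.ofReal_mul (by norm_num), ENNReal.ofReal_natCast]
      norm_num
    rw [e2, ← ENNReal.ofReal_mul (by positivity), ← ENNReal.ofReal_mul (by positivity),
      ← ENNReal.ofReal_mul (by positivity), ← ENNReal.ofReal_div_of_pos hc,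
      ← ENNReal.ofReal_add (by positivity) (by positivity)]
    congr 1
    rw [hεd]
    field_simp
  -- the limit
  have hlim : Filter.Tendsto (fun k : ℕ => ENNReal.ofReal (2 * r * L + 2 * r * L * r / c * (1 / k)))
      Filter.atTop (𝓝 (ENNReal.ofReal (2 * r * L))) := by
    apply ENNReal.tendsto_ofReal
    have h1 := (tendsto_one_div_atTop_nhds_zero_nat (𝕜 := ℝ)).const_mul (2 * r * L * r / c)
    have h2 := h1.const_add (2 * r * L)
    rwa [mul_zero, add_zero] at h2
  refine ge_of_tendsto hlim ?_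
  filter_upwards [Filter.eventually_ge_atTop 1] with k hk
  exact key k hk

/-- **most segments around points of `A` are in `A`** -/
theorem tv {L : ℝ} (hL : 0 ≤ L) {A : Set T2} (hA : MeasurableSet A)
    (h : ∀ b : ℝ, volume {p | p ∈ A ∧ tl b p ∉ A} ≤ ENNReal.ofReal (L * |b|)) {r : ℝ} (hr : 0 < r) :
    volume (A \ Full r A) ≤ ENNReal.ofReal (2 * r * L) := by
  set W : ℕ → Set T2 := fun j => {p | p ∈ A ∧ ENNReal.ofReal (1 / (j + 1)) ≤ gg r A p} with hW
  have hsub : A \ Full r A ⊆ ⋃ j, W j := by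
    rintro p ⟨hpA, hp⟩
    have h1 := not_full_gg hA hp
    rw [mem_iUnion]
    have h2 : Filter.Tendsto (fun j : ℕ => ENNReal.ofReal (1 / ((j:ℝ) + 1))) Filter.atTop
        (𝓝 (ENNReal.ofReal 0)) :=
      ENNReal.tendsto_ofReal tendsto_one_div_add_atTop_nhds_zero_nat
    rw [ENNReal.ofReal_zero] at h2
    obtain ⟨j, hj⟩ := (h2.eventually (gt_mem_nhds h1)).exists
    exact ⟨j, hpA, hj.le⟩
  refine (measure_mono hsub).trans ?_
  have hmono : Monotone W := by
    intro i j hij p hp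
    refine ⟨hp.1, le_trans (ENNReal.ofReal_le_ofReal ?_) hp.2⟩
    apply one_div_le_one_div_of_le (by positivity)
    have : (i:ℝ) ≤ j := by exact_mod_cast hij
    linarith
  rw [hmono.measure_iUnion]
  exact iSup_le fun j => level hL hA h hr (by positivity)

end Pool.Agent.U785.WB
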