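import Mathlib
import Pool.Agent.U785.WB.Tv

set_option autoImplicit false

/-!
# The perimeter of a measurable invariant set
-/

namespace Pool.Agent.U785.WB

open Real MeasureTheory Set Function Topology
open Pool.Agent.TH705.SM (T2 S Si S_cont Si_S S_mp iter_mp)
open Pool.Agent.Y332.SM
open scoped ENNReal

theorem per_bound {a r : ℝ} {n : ℕ} {K : Set T2} (hK : BadSet a n r K) (hKm : MeasurableSet K)
    (hr : 0 < r) {A : Set T2} (hAm : MeasurableSet A) (hA : S a ⁻¹' A = A) {L : ℝ} (hL : 0 ≤ L)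
    (h1 : ∀ b : ℝ, volume {p | p ∈ A ∧ tl b p ∉ A} ≤ ENNReal.ofReal (L * |b|))
    (h2 : ∀ b : ℝ, volume {p | p ∈ Prod.swap ⁻¹' Aᶜ ∧ tl b p ∉ Prod.swap ⁻¹' Aᶜ} ≤
      ENNReal.ofReal (L * |b|))
    {η : ℝ≥0∞} (hη1 : η ≤ volume A) (hη2 : η ≤ volume Aᶜ) :
    η ≤ volume K + ENNReal.ofReal (4 * r) * ENNReal.ofReal L := by
  rw [← ENNReal.ofReal_mul (by positivity)]
  have key : ∀ B : Set T2, MeasurableSet B → ∀ ρ : ℝ, 0 < ρ → ρ ≤ 2 * r →
      (∀ b : ℝ, volume {p | p ∈ B ∧ tl b p ∉ B} ≤ ENNReal.ofReal (L * |b|)) →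
      volume (Full ρ B \ K) = 0 → volume B ≤ volume K + ENNReal.ofReal (4 * r * L) := by
    intro B hB ρ hρ hρr h3 h4
    have h5 := tv hL hB h3 hρ
    have hsub : B ⊆ K ∪ ((B \ Full ρ B) ∪ (Full ρ B \ K)) := by
      intro p hp
      by_cases h6 : p ∈ K
      · exact Or.inl h6
      · by_cases h7 : p ∈ Full ρ B
        · exact Or.inr (Or.inr ⟨h7, h6⟩)
        · exact Or.inr (Or.inl ⟨hp, h7⟩)
    refine (measure_mono hsub).trans ((measure_union_le _ _).trans (add_le_add le_rfl ?_))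
    refine (measure_union_le _ _).trans ?_
    rw [h4, add_zero]
    refine h5.trans (ENNReal.ofReal_le_ofReal ?_)
    have : 2 * ρ * L ≤ 2 * (2 * r) * L := by
      apply mul_le_mul_of_nonneg_right _ hL
      linarith
    linarith
  rcases cross hK hK hKm hKm hr hAm hA with h | h
  · exact hη1.trans (key A hAm r hr (by linarith) h1 h)
  · have h3 := key (Prod.swap ⁻¹' Aᶜ) (measurable_swap hAm.compl) (2 * r) (by linarith) le_rfl h2 h
    rw [vol_swap] at h3
    exact hη2.trans h3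

/-- translation of the second coordinate -/
noncomputable def tv2 (b : ℝ) (p : T2) : T2 := (p.1, p.2 + (b : UnitAddCircle))

theorem tv2_mp (b : ℝ) : MeasurePreserving (tv2 b) (volume : Measure T2) volume :=
  (MeasurePreserving.id (volume : Measure UnitAddCircle)).prod
    (measurePreserving_add_right (volume : Measure UnitAddCircle) (b : UnitAddCircle))

/-- **the perimeter of an invariant set** -/
theorem perimeter {a : ℝ} (ha : 1 ≤ |a|) {A : Set T2} (hAm : MeasurableSet A)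
    (hA : volume (symmDiff (S a ⁻¹' A) A) = 0) {η : ℝ}
    (h1 : ENNReal.ofReal η ≤ volume A) (h2 : ENNReal.ofReal η ≤ volume Aᶜ)
    (hη : 64 * C1 ^ 2 * (1 + log |a|) ≤ η * √|a|) {L : ℝ}
    (hL1 : ∀ b : ℝ, volume (symmDiff (tl b ⁻¹' A) A) ≤ ENNReal.ofReal (L * |b|))
    (hL2 : ∀ b : ℝ, volume (symmDiff (tv2 b ⁻¹' A) A) ≤ ENNReal.ofReal (L * |b|)) :
    (η ^ 2 * |a| / (64 * C1 ^ 2)) ^ ((η * |a| / (64 * C1 ^ 2 * (1 + log |a|))) ^ 2) ≤ L := by
  have hC1 := C1_ge
  have ha0 : 0 < |a| := by linarith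
  have hl := log_nonneg ha
  have hη1 : η ≤ 1 := by
    have h3 : ENNReal.ofReal η ≤ 1 := h1.trans prob_le_one
    rwa [ENNReal.ofReal_le_one] at h3
  have hη0 : 0 < η := by
    have h3 : 0 < η * √|a| := lt_of_lt_of_le (by positivity) hη
    exact (mul_pos_iff_of_pos_right (Real.sqrt_pos.2 ha0)).1 h3
  -- a representative which is invariant
  rw [measure_symmDiff_eq_zero_iff] at hA
  obtain ⟨B, hBm, hBA, hB⟩ := (S_mp a).quasiMeasurePreserving.exists_preimage_eq_of_preimage_ae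
    hAm.nullMeasurableSet hA
  set M : ℝ := max L 0 with hM
  have hM0 : 0 ≤ M := le_max_right _ _
  have hLM : ∀ b : ℝ, ENNReal.ofReal (L * |b|) ≤ ENNReal.ofReal (M * |b|) := fun b =>
    ENNReal.ofReal_le_ofReal (mul_le_mul_of_nonneg_right (le_max_left _ _) (abs_nonneg b))
  have hB1 : ∀ b : ℝ, volume {p | p ∈ B ∧ tl b p ∉ B} ≤ ENNReal.ofReal (M * |b|) := by
    intro b
    have e : {p | p ∈ B ∧ tl b p ∉ B} = B \ tl b ⁻¹' B := rfl
    rw [e, measure_congr (hBA.diff ((tl_mp b).quasiMeasurePreserving.preimage_ae_eq hBA))]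
    refine (measure_mono ?_).trans ((hL1 b).trans (hLM b))
    rw [symmDiff_comm]
    exact fun p hp => Or.inl hp
  have hB2 : ∀ b : ℝ, volume {p | p ∈ Prod.swap ⁻¹' Bᶜ ∧ tl b p ∉ Prod.swap ⁻¹' Bᶜ} ≤
      ENNReal.ofReal (M * |b|) := by
    intro b
    have e : {p : T2 | p ∈ Prod.swap ⁻¹' Bᶜ ∧ tl b p ∉ Prod.swap ⁻¹' Bᶜ} =
        Prod.swap ⁻¹' (tv2 b ⁻¹' B \ B) := by
      ext p
      simp only [mem_ofPred_eq, mem_preimage, mem_compl_iff, mem_sdiff, not_not]
      constructor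
      · rintro ⟨h3, h4⟩
        exact ⟨h4, h3⟩
      · rintro ⟨h3, h4⟩
        exact ⟨h4, h3⟩
    rw [e, vol_swap,
      measure_congr (((tv2_mp b).quasiMeasurePreserving.preimage_ae_eq hBA).diff hBA)]
    refine (measure_mono ?_).trans ((hL2 b).trans (hLM b))
    exact fun p hp => Or.inl hp
  have h1' : ENNReal.ofReal η ≤ volume B := by rwa [measure_congr hBA]
  have h2' : ENNReal.ofReal η ≤ volume Bᶜ := by rwa [measure_congr hBA.compl]
  have h3 := len_core ha hη1 hη (l := ENNReal.ofReal M) fun n h hn hh0 hh1 => by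
    obtain ⟨K, hKc, hK, hKv⟩ := exists_bad (a := a) ha hn hh0 hh1
    have hr : 0 < 6 * |a| ^ (-(1 - h) * n) := by positivity
    exact (per_bound hK hKc.measurableSet hr hBm hB hM0 hB1 hB2 h1' h2').trans
      (add_le_add_left hKv _)
  have h4 : 0 < (η ^ 2 * |a| / (64 * C1 ^ 2)) ^
      ((η * |a| / (64 * C1 ^ 2 * (1 + log |a|))) ^ 2) := by positivity
  rw [ENNReal.ofReal_le_ofReal_iff hM0] at h3
  rcases le_total L 0 with h5 | h5
  · rw [hM, max_eq_right h5] at h3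
    linarith
  · rwa [hM, max_eq_left h5] at h3

end Pool.Agent.U785.WB
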